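import Pool.Agent.helper50.MA.Spec3

/-!
# Project ma, module K1: circle means increase; the three circles bound
-/

set_option autoImplicit false

open MeasureTheory Set Filter Topology Complex
open scoped ContDiff Real

namespace MAP

noncomputable section

/-- the circle -/
def K1_c (z : ℂ) (r θ : ℝ) : ℂ := z + r * cexp (θ * I)

theorem K1_c_cont (z : ℂ) (r : ℝ) : Continuous (K1_c z r) := by
  unfold K1_c
  fun_prop

theorem K1_c_mem (z : ℂ) (r θ : ℝ) (hr : 0 ≤ r) : K1_c z r θ ∈ Metric.closedBall z r := by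
  unfold K1_c
  rw [Metric.mem_closedBall, dist_eq_norm, add_sub_cancel_left, norm_mul, Complex.norm_exp_ofReal_mul_I,
    mul_one, Complex.norm_real, Real.norm_eq_abs, abs_of_nonneg hr]

theorem K1_sq (z : ℂ) (r : ℝ) : ∫ θ in (0 : ℝ)..(2 * π), ‖K1_c z r θ‖ ^ 2 =
    (2 * π) * (‖z‖ ^ 2 + r ^ 2) := by
  have h1 : ∀ θ : ℝ, ‖K1_c z r θ‖ ^ 2 = (‖z‖ ^ 2 + r ^ 2) + ((2 * r * z.re) * Real.cos θ +
      (2 * r * z.im) * Real.sin θ) := by
    intro θ
    unfold K1_c
    rw [Complex.sq_norm, Complex.sq_norm, Complex.normSq_apply, Complex.normSq_apply, Complex.exp_mul_I]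
    simp only [Complex.add_re, Complex.mul_re, Complex.ofReal_re, Complex.ofReal_im, Complex.add_im,
      Complex.mul_im, Complex.cos_ofReal_re, Complex.sin_ofReal_re, Complex.I_re, Complex.I_im,
      Complex.cos_ofReal_im, Complex.sin_ofReal_im]
    have := Real.cos_sq_add_sin_sq θ
    ring_nf
    ring_nf at this
    linear_combination (r ^ 2) * this
  simp_rw [h1]
  obtain ⟨c, hc⟩ : ∃ c : ℝ, c = ‖z‖ ^ 2 + r ^ 2 := ⟨_, rfl⟩
  rw [← hc]
  rw [intervalIntegral.integral_add, intervalIntegral.integral_add,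
    intervalIntegral.integral_const_mul, intervalIntegral.integral_const_mul, integral_cos,
    integral_sin, intervalIntegral.integral_const]
  · simp
  all_goals
    apply Continuous.intervalIntegrable
    fun_prop

/-- the maximum principle -/
theorem K1_mp (K Bd : Set ℂ) (hK : IsCompact K) (G : ℂ → ℝ) (hG : UpperSemicontinuousOn G K) (B : ℝ)
    (hB : ∀ w ∈ K, w ∈ Bd → G w ≤ B)
    (hloc : ∀ z ∈ K, z ∉ Bd → ∃ r > 0, Metric.closedBall z r ⊆ K ∧
      IntervalIntegrable (fun θ => G (K1_c z r θ)) volume 0 (2 * π) ∧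
      G z ≤ (2 * π)⁻¹ * ∫ θ in (0 : ℝ)..(2 * π), G (K1_c z r θ)) : ∀ z ∈ K, G z ≤ B := by
  intro z hz
  obtain ⟨R, hR⟩ := hK.isBounded.exists_norm_le
  have hR0 : 0 ≤ R := (norm_nonneg z).trans (hR z hz)
  have hpi : 0 < 2 * π := by positivity
  have key : ∀ ε : ℝ, 0 < ε → G z ≤ B + ε * R ^ 2 := by
    intro ε hε
    have hc : UpperSemicontinuousOn (fun w : ℂ => ε * ‖w‖ ^ 2) K :=
      (Continuous.continuousOn (by fun_prop)).upperSemicontinuousOn
    obtain ⟨w, hw, hmax⟩ := UpperSemicontinuousOn.exists_isMaxOn ⟨z, hz⟩ hK (hG.add hc)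
    have hzw : G z + ε * ‖z‖ ^ 2 ≤ G w + ε * ‖w‖ ^ 2 := hmax hz
    have hwB : w ∈ Bd := by
      by_contra hnot
      obtain ⟨r, hr, hsub, hint, hle⟩ := hloc w hw hnot
      have h1 : ∀ θ ∈ Set.Icc (0 : ℝ) (2 * π), G (K1_c w r θ) + ε * ‖K1_c w r θ‖ ^ 2 ≤
          G w + ε * ‖w‖ ^ 2 := fun θ _ => hmax (hsub (K1_c_mem w r θ hr.le))
      have hcc := K1_c_cont w r
      have hint2 : IntervalIntegrable (fun θ => ε * ‖K1_c w r θ‖ ^ 2) volume 0 (2 * π) := by
        apply Continuous.intervalIntegrable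
        fun_prop
      have h2 := intervalIntegral.integral_mono_on (a := 0) (b := 2 * π) (by positivity)
        (hint.add hint2) (intervalIntegrable_const (c := G w + ε * ‖w‖ ^ 2)) h1
      rw [intervalIntegral.integral_add hint hint2, intervalIntegral.integral_const_mul, K1_sq,
        intervalIntegral.integral_const] at h2
      have h3 : (2 * π) * G w ≤ ∫ θ in (0 : ℝ)..(2 * π), G (K1_c w r θ) := by
        have h4 := mul_le_mul_of_nonneg_left hle hpi.le
        rwa [← mul_assoc, mul_inv_cancel₀ hpi.ne', one_mul] at h4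
      simp only [sub_zero, smul_eq_mul] at h2
      have h5 : 0 < (2 * π) * (ε * r ^ 2) := by positivity
      nlinarith
    have h6 := hB w hw hwB
    have h7 : ‖w‖ ^ 2 ≤ R ^ 2 := by
      have := hR w hw
      have := norm_nonneg w
      nlinarith
    have h8 : 0 ≤ ε * ‖z‖ ^ 2 := by positivity
    nlinarith
  by_contra hcon
  push Not at hcon
  have h9 := key ((G z - B) / (2 * (R ^ 2 + 1))) (by
    apply div_pos (by linarith)
    positivity)
  have h10 : (G z - B) / (2 * (R ^ 2 + 1)) * R ^ 2 ≤ (G z - B) / 2 := by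
    rw [div_mul_eq_mul_div, div_le_div_iff₀ (by positivity) (by norm_num)]
    nlinarith [sq_nonneg R]
  linarith

/-- one variable reduction -/
structure K1_D (g : ℂ → ℝ) : Prop where
  usc : UpperSemicontinuousOn g (Metric.closedBall 0 1)
  bdd : ∃ m : ℝ, ∀ z ∈ Metric.closedBall (0 : ℂ) 1, |g z| ≤ m
  sub : ∀ (z w : ℂ), ‖z‖ + ‖w‖ ≤ 1 →
    g z ≤ (2 * π)⁻¹ * ∫ θ in (0 : ℝ)..(2 * π), g (z + cexp (θ * I) * w)

theorem K1_red (U : Set C2) (u : C2 → ℝ) (x ξ : C2) (hu : PshB U u) (hd : disc x ξ ⊆ U) :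
    K1_D (fun ζ => u (x + ζ • ξ)) := by
  have hcont : Continuous (fun ζ : ℂ => x + ζ • ξ) := by fun_prop
  have hmaps : MapsTo (fun ζ : ℂ => x + ζ • ξ) (Metric.closedBall 0 1) U := by
    intro ζ hζ
    exact hd ⟨ζ, by simpa using hζ, rfl⟩
  refine ⟨?_, ?_, ?_⟩
  · exact hu.1.comp hcont.continuousOn hmaps
  · obtain ⟨m, hm⟩ := hu.2.1 ((fun ζ : ℂ => x + ζ • ξ) '' Metric.closedBall 0 1)
      (by rintro _ ⟨ζ, hζ, rfl⟩; exact hmaps hζ) ((isCompact_closedBall 0 1).image hcont)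
    exact ⟨m, fun z hz => hm _ ⟨z, hz, rfl⟩⟩
  · intro z w hzw
    have h1 : disc (x + z • ξ) (w • ξ) ⊆ U := by
      rintro y ⟨ζ, hζ, rfl⟩
      refine hd ⟨z + ζ * w, ?_, ?_⟩
      · calc ‖z + ζ * w‖ ≤ ‖z‖ + ‖ζ * w‖ := norm_add_le _ _
          _ = ‖z‖ + ‖ζ‖ * ‖w‖ := by rw [norm_mul]
          _ ≤ ‖z‖ + 1 * ‖w‖ := by
            have := mul_le_mul_of_nonneg_right hζ (norm_nonneg w)
            linarith
          _ ≤ 1 := by rw [one_mul]; exact hzw
      · rw [add_smul, mul_smul, add_assoc]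
    have h2 := hu.2.2 _ _ h1
    unfold mean at h2
    refine h2.trans (le_of_eq ?_)
    congr 1
    apply intervalIntegral.integral_congr
    intro θ _
    show u (x + z • ξ + cexp (θ * I) • w • ξ) = u (x + (z + cexp (θ * I) * w) • ξ)
    congr 1
    rw [add_smul, mul_smul, add_assoc]

theorem K1_meas {g : ℂ → ℝ} (hg : K1_D g) {α : Type} [TopologicalSpace α] [MeasurableSpace α]
    [OpensMeasurableSpace α] (φ : α → ℂ) (hφ : Continuous φ) (hb : ∀ a, ‖φ a‖ ≤ 1) :
    Measurable (fun a => g (φ a)) := by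
  have h1 : UpperSemicontinuousOn (g ∘ φ) Set.univ :=
    hg.usc.comp hφ.continuousOn (fun a _ => by simpa using hb a)
  exact (upperSemicontinuousOn_univ_iff.1 h1).measurable

theorem K1_ii {g : ℂ → ℝ} (hg : K1_D g) (φ : ℝ → ℂ) (hφ : Continuous φ) (hb : ∀ a, ‖φ a‖ ≤ 1)
    (s t : ℝ) : IntervalIntegrable (fun a => g (φ a)) volume s t := by
  obtain ⟨m, hm⟩ := hg.bdd
  rw [intervalIntegrable_iff]
  refine Measure.integrableOn_of_bounded (M := m) (by simp) (K1_meas hg φ hφ hb).aestronglyMeasurable ?_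
  exact Filter.Eventually.of_forall fun a => hm _ (by simpa using hb a)

/-- circular mean -/
def K1_G (g : ℂ → ℝ) (ζ : ℂ) : ℝ := (2 * π)⁻¹ * ∫ θ in (0 : ℝ)..(2 * π), g (cexp (θ * I) * ζ)

theorem K1_norm (θ : ℝ) (ζ : ℂ) : ‖cexp (θ * I) * ζ‖ = ‖ζ‖ := by
  rw [norm_mul, Complex.norm_exp_ofReal_mul_I, one_mul]

theorem K1_rot (g : ℂ → ℝ) (ζ : ℂ) (ψ : ℝ) : K1_G g (cexp (ψ * I) * ζ) = K1_G g ζ := by
  unfold K1_G
  congr 1
  have hper : Function.Periodic (fun θ : ℝ => g (cexp (θ * I) * ζ)) (2 * π) := by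
    intro θ
    show g (cexp (((θ + 2 * π : ℝ) : ℂ) * I) * ζ) = g (cexp (θ * I) * ζ)
    have h1 : cexp (((θ + 2 * π : ℝ) : ℂ) * I) = cexp (θ * I) := by
      push_cast
      rw [add_mul, Complex.exp_add, Complex.exp_two_pi_mul_I, mul_one]
    rw [h1]
  have h2 := hper.intervalIntegral_add_eq ψ 0
  rw [zero_add] at h2
  rw [← h2]
  have h3 : ∫ θ in (0 : ℝ)..(2 * π), g (cexp (θ * I) * (cexp (ψ * I) * ζ)) =
      ∫ θ in (0 : ℝ)..(2 * π), (fun θ : ℝ => g (cexp (θ * I) * ζ)) (θ + ψ) := by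
    apply intervalIntegral.integral_congr
    intro θ _
    show g (cexp (θ * I) * (cexp (ψ * I) * ζ)) = g (cexp (((θ + ψ : ℝ) : ℂ) * I) * ζ)
    congr 1
    push_cast
    rw [add_mul, Complex.exp_add]
    ring
  rw [h3, intervalIntegral.integral_comp_add_right (fun θ : ℝ => g (cexp (θ * I) * ζ)) ψ]
  rw [zero_add, add_comm]

theorem K1_rad (g : ℂ → ℝ) (ζ : ℂ) : K1_G g ζ = K1_G g ((‖ζ‖ : ℝ) : ℂ) := by
  have h1 : ζ = cexp ((Complex.arg ζ : ℝ) * I) * ((‖ζ‖ : ℝ) : ℂ) := by
    rw [mul_comm]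
    exact (Complex.norm_mul_exp_arg_mul_I ζ).symm
  conv_lhs => rw [h1]
  exact K1_rot g _ _

theorem K1_G_ge {g : ℂ → ℝ} (hg : K1_D g) (m : ℝ) (hm : ∀ z ∈ Metric.closedBall (0 : ℂ) 1, |g z| ≤ m)
    (ζ : ℂ) (hζ : ‖ζ‖ ≤ 1) : 0 ≤ K1_G g ζ + m := by
  have hE : Continuous (fun θ : ℝ => cexp (θ * I) * ζ) := by fun_prop
  have hb : ∀ θ : ℝ, ‖cexp (θ * I) * ζ‖ ≤ 1 := fun θ => by rw [K1_norm]; exact hζ
  have h1 := intervalIntegral.integral_mono_on (a := 0) (b := 2 * π) (by positivity)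
    (intervalIntegrable_const (c := -m)) (K1_ii hg _ hE hb 0 (2 * π))
    (fun θ _ => (abs_le.1 (hm (cexp (θ * I) * ζ) (by simpa using hb θ))).1)
  rw [intervalIntegral.integral_const] at h1
  simp only [sub_zero, smul_eq_mul] at h1
  unfold K1_G
  have hpi : 0 < 2 * π := by positivity
  have h2 := mul_le_mul_of_nonneg_left h1 (inv_pos.2 hpi).le
  rw [← mul_assoc, inv_mul_cancel₀ hpi.ne', one_mul] at h2
  linarith

theorem K1_usc {g : ℂ → ℝ} (hg : K1_D g) :
    UpperSemicontinuousOn (K1_G g) (Metric.closedBall 0 1) := by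
  intro ζ hζ y hy
  obtain ⟨m, hm⟩ := hg.bdd
  by_contra hcon
  have hfr : ∃ᶠ z in 𝓝[Metric.closedBall 0 1] ζ, y ≤ K1_G g z := by
    intro h
    apply hcon
    filter_upwards [h] with z hz
    exact not_le.1 hz
  obtain ⟨z, hz, hzy⟩ := exists_seq_forall_of_frequently hfr
  have hzlim : Tendsto z atTop (𝓝 ζ) := tendsto_nhds_of_tendsto_nhdsWithin hz
  have hzK : ∀ᶠ n in atTop, z n ∈ Metric.closedBall (0 : ℂ) 1 :=
    hz.eventually (eventually_mem_nhdsWithin)
  obtain ⟨N, hN⟩ := Filter.eventually_atTop.1 hzK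
  have hζ1 : ‖ζ‖ ≤ 1 := by simpa using hζ
  have hz1 : ∀ n, ‖z (n + N)‖ ≤ 1 := fun n => by simpa using hN (n + N) (by omega)
  have hm0 : 0 ≤ m := (abs_nonneg _).trans (hm ζ hζ)
  obtain ⟨μ, hμ⟩ : ∃ μ : Measure ℝ, μ = volume.restrict (Set.Ioc 0 (2 * π)) := ⟨_, rfl⟩
  have hfin : IsFiniteMeasure μ := by
    rw [hμ]
    infer_instance
  have hpi : (0 : ℝ) ≤ 2 * π := by positivity
  have hE : ∀ w : ℂ, Continuous (fun θ : ℝ => cexp (θ * I) * w) := fun w => by fun_prop
  -- lintegral of the shifted function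
  have hL : ∀ w : ℂ, ‖w‖ ≤ 1 → ∫⁻ θ, ENNReal.ofReal (g (cexp (θ * I) * w) + m) ∂μ =
      ENNReal.ofReal (2 * π * (K1_G g w + m)) := by
    intro w hw
    have hb : ∀ θ : ℝ, ‖cexp (θ * I) * w‖ ≤ 1 := fun θ => by rw [K1_norm]; exact hw
    have hi : Integrable (fun θ : ℝ => g (cexp (θ * I) * w) + m) μ := by
      have h1 := (intervalIntegrable_iff_integrableOn_Ioc_of_le hpi).1
        (K1_ii hg (fun θ : ℝ => cexp (θ * I) * w) (hE w) hb 0 (2 * π))
      have h2 : Integrable (fun θ : ℝ => g (cexp (θ * I) * w)) μ := by rw [hμ]; exact h1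
      exact h2.add (integrable_const m)
    have hnn : 0 ≤ᵐ[μ] fun θ : ℝ => g (cexp (θ * I) * w) + m := by
      refine Filter.Eventually.of_forall fun θ => ?_
      have := (abs_le.1 (hm (cexp (θ * I) * w) (by simpa using hb θ))).1
      show (0 : ℝ) ≤ g (cexp (θ * I) * w) + m
      linarith
    rw [← ofReal_integral_eq_lintegral_ofReal hi hnn]
    congr 1
    have h3 : ∫ θ, (g (cexp (θ * I) * w) + m) ∂μ = ∫ θ in (0 : ℝ)..(2 * π),
        (g (cexp (θ * I) * w) + m) := by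
      rw [intervalIntegral.integral_of_le hpi, hμ]
    rw [h3, intervalIntegral.integral_add (K1_ii hg _ (hE w) hb 0 (2 * π))
      intervalIntegrable_const, intervalIntegral.integral_const]
    unfold K1_G
    simp only [sub_zero, smul_eq_mul]
    have : (2 * π) ≠ 0 := by positivity
    obtain ⟨J, hJ⟩ : ∃ J : ℝ, J = ∫ θ in (0 : ℝ)..(2 * π), g (cexp (θ * I) * w) := ⟨_, rfl⟩
    rw [← hJ, mul_add, ← mul_assoc, mul_inv_cancel₀ this, one_mul]
  have hfatou := limsup_lintegral_le (μ := μ)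
    (f := fun n => fun θ : ℝ => ENNReal.ofReal (g (cexp (θ * I) * z (n + N)) + m))
    (fun _ => ENNReal.ofReal (m + m))
    (fun n => ((K1_meas hg _ (hE _) (fun θ => by rw [K1_norm]; exact hz1 n)).add_const m).ennreal_ofReal)
    (fun n => Filter.Eventually.of_forall fun θ => ENNReal.ofReal_le_ofReal (by
      have := (abs_le.1 (hm (cexp (θ * I) * z (n + N)) (by
        have := K1_norm θ (z (n + N))
        have := hz1 n
        simp only [Metric.mem_closedBall, dist_zero_right]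
        linarith))).2
      linarith))
    (by
      rw [lintegral_const]
      exact ENNReal.mul_ne_top ENNReal.ofReal_ne_top (measure_ne_top μ _))
  have hlow : ENNReal.ofReal (2 * π * (y + m)) ≤ limsup (fun n => ∫⁻ θ, ENNReal.ofReal
      (g (cexp (θ * I) * z (n + N)) + m) ∂μ) atTop := by
    apply le_limsup_of_frequently_le'
    refine Filter.Frequently.of_forall fun n => ?_
    rw [hL _ (hz1 n)]
    apply ENNReal.ofReal_le_ofReal
    have := hzy (n + N)
    apply mul_le_mul_of_nonneg_left _ hpi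
    linarith
  have hup : ∫⁻ θ, limsup (fun n => ENNReal.ofReal (g (cexp (θ * I) * z (n + N)) + m)) atTop ∂μ ≤
      ∫⁻ θ, ENNReal.ofReal (g (cexp (θ * I) * ζ) + m) ∂μ := by
    apply lintegral_mono
    intro θ
    refine le_of_forall_gt_imp_ge_of_dense fun b hb => ?_
    rcases eq_or_ne b ⊤ with h | h
    · rw [h]
      exact le_top
    · have hnn : 0 ≤ g (cexp (θ * I) * ζ) + m := by
        have := (abs_le.1 (hm (cexp (θ * I) * ζ) (by
          have := K1_norm θ ζ
          simp only [Metric.mem_closedBall, dist_zero_right]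
          linarith))).1
        linarith
      have h1 := (ENNReal.ofReal_lt_iff_lt_toReal hnn h).1 hb
      have h2 : g (cexp (θ * I) * ζ) < b.toReal - m := by linarith
      have h3 := hg.usc (cexp (θ * I) * ζ) (by
          have := K1_norm θ ζ
          simp only [Metric.mem_closedBall, dist_zero_right]
          linarith) _ h2
      have h4 : Tendsto (fun n => cexp (θ * I) * z (n + N)) atTop
          (𝓝[Metric.closedBall 0 1] (cexp (θ * I) * ζ)) := by
        apply tendsto_nhdsWithin_iff.2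
        constructor
        · exact ((tendsto_add_atTop_iff_nat N).2 hzlim).const_mul _
        · refine Filter.Eventually.of_forall fun n => ?_
          have := K1_norm θ (z (n + N))
          have := hz1 n
          simp only [Metric.mem_closedBall, dist_zero_right]
          linarith
      have h5 := h4.eventually h3
      refine limsup_le_of_le (by isBoundedDefault) ?_
      filter_upwards [h5] with n hn
      have hn' : g (cexp (θ * I) * z (n + N)) < b.toReal - m := hn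
      rw [← ENNReal.ofReal_toReal h]
      apply ENNReal.ofReal_le_ofReal
      linarith
  have h1 := (hlow.trans hfatou).trans hup
  rw [hL ζ hζ1] at h1
  have h2 : 0 ≤ K1_G g ζ + m := K1_G_ge hg m hm ζ hζ1
  rw [ENNReal.ofReal_le_ofReal_iff (by positivity)] at h1
  have h3 : y + m ≤ K1_G g ζ + m := le_of_mul_le_mul_left h1 (by positivity)
  linarith

theorem K1_DG {g : ℂ → ℝ} (hg : K1_D g) : K1_D (K1_G g) := by
  obtain ⟨m, hm⟩ := hg.bdd
  have hpi : (0 : ℝ) < 2 * π := by positivity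
  refine ⟨K1_usc hg, ⟨m, ?_⟩, ?_⟩
  · intro ζ hζ
    have hζ1 : ‖ζ‖ ≤ 1 := by simpa using hζ
    have h1 := K1_G_ge hg m hm ζ hζ1
    have hE : Continuous (fun θ : ℝ => cexp (θ * I) * ζ) := by fun_prop
    have hb : ∀ θ : ℝ, ‖cexp (θ * I) * ζ‖ ≤ 1 := fun θ => by rw [K1_norm]; exact hζ1
    have h2 := intervalIntegral.integral_mono_on (a := 0) (b := 2 * π) (by positivity)
      (K1_ii hg _ hE hb 0 (2 * π)) (intervalIntegrable_const (c := m))
      (fun θ _ => (abs_le.1 (hm (cexp (θ * I) * ζ) (by simpa using hb θ))).2)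
    rw [intervalIntegral.integral_const] at h2
    simp only [sub_zero, smul_eq_mul] at h2
    have h3 := mul_le_mul_of_nonneg_left h2 (inv_pos.2 hpi).le
    rw [← mul_assoc, inv_mul_cancel₀ hpi.ne', one_mul] at h3
    have h4 : K1_G g ζ ≤ m := h3
    rw [abs_le]
    constructor <;> linarith
  · intro z w hzw
    obtain ⟨μ, hμ⟩ : ∃ μ : Measure ℝ, μ = volume.restrict (Set.Ioc 0 (2 * π)) := ⟨_, rfl⟩
    have hfin : IsFiniteMeasure μ := by
      rw [hμ]
      infer_instance
    have hI : ∀ f : ℝ → ℝ, ∫ θ in (0 : ℝ)..(2 * π), f θ = ∫ θ, f θ ∂μ := fun f => by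
      rw [intervalIntegral.integral_of_le hpi.le, hμ]
    have hn : ∀ θ φ : ℝ, ‖cexp (θ * I) * (z + cexp (φ * I) * w)‖ ≤ 1 := by
      intro θ φ
      rw [K1_norm]
      refine (norm_add_le _ _).trans ?_
      rw [K1_norm]
      exact hzw
    have hF : Integrable (fun p : ℝ × ℝ => g (cexp (p.1 * I) * (z + cexp (p.2 * I) * w))) (μ.prod μ) := by
      refine Integrable.of_bound ?_ m (Filter.Eventually.of_forall fun p => ?_)
      · exact (K1_meas hg (fun p : ℝ × ℝ => cexp (p.1 * I) * (z + cexp (p.2 * I) * w))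
          (by fun_prop) (fun p => hn p.1 p.2)).aestronglyMeasurable
      · exact hm _ (by simpa using hn p.1 p.2)
    have h1 : ∀ θ : ℝ, g (cexp (θ * I) * z) ≤ (2 * π)⁻¹ * ∫ φ,
        g (cexp (θ * I) * (z + cexp (φ * I) * w)) ∂μ := by
      intro θ
      have h2 := hg.sub (cexp (θ * I) * z) (cexp (θ * I) * w) (by rw [K1_norm, K1_norm]; exact hzw)
      rw [hI] at h2
      refine h2.trans (le_of_eq ?_)
      congr 1
      apply integral_congr_ae
      refine Filter.Eventually.of_forall fun φ => ?_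
      show g (cexp (θ * I) * z + cexp (φ * I) * (cexp (θ * I) * w)) =
        g (cexp (θ * I) * (z + cexp (φ * I) * w))
      congr 1
      ring
    have hz1 : ‖z‖ ≤ 1 := by
      have := norm_nonneg w
      linarith
    have hgi : Integrable (fun θ : ℝ => g (cexp (θ * I) * z)) μ := by
      have h2 := (intervalIntegrable_iff_integrableOn_Ioc_of_le hpi.le).1
        (K1_ii hg (fun θ : ℝ => cexp (θ * I) * z) (by fun_prop)
          (fun θ => by rw [K1_norm]; exact hz1) 0 (2 * π))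
      rw [hμ]
      exact h2
    have h3 : ∫ θ, g (cexp (θ * I) * z) ∂μ ≤ ∫ θ, ((2 * π)⁻¹ * ∫ φ,
        g (cexp (θ * I) * (z + cexp (φ * I) * w)) ∂μ) ∂μ :=
      integral_mono hgi (hF.integral_prod_left.const_mul _) h1
    have h4 : K1_G g z = (2 * π)⁻¹ * ∫ θ, g (cexp (θ * I) * z) ∂μ := by
      unfold K1_G
      rw [hI]
    have h5 : (2 * π)⁻¹ * ∫ φ in (0 : ℝ)..(2 * π), K1_G g (z + cexp (φ * I) * w) =
        (2 * π)⁻¹ * ∫ θ, ((2 * π)⁻¹ * ∫ φ, g (cexp (θ * I) * (z + cexp (φ * I) * w)) ∂μ) ∂μ := by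
      congr 1
      rw [hI, integral_const_mul, integral_integral_swap hF, ← integral_const_mul]
      apply integral_congr_ae
      refine Filter.Eventually.of_forall fun φ => ?_
      show K1_G g (z + cexp (φ * I) * w) = _
      unfold K1_G
      rw [hI]
    rw [h4, h5]
    exact mul_le_mul_of_nonneg_left h3 (inv_pos.2 hpi).le

theorem K1_mono {g : ℂ → ℝ} (hg : K1_D g) (s t : ℝ) (hs : 0 ≤ s) (hst : s ≤ t) (ht : t ≤ 1) :
    K1_G g s ≤ K1_G g t := by
  have hG := K1_DG hg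
  have hsub : Metric.closedBall (0 : ℂ) t ⊆ Metric.closedBall 0 1 := Metric.closedBall_subset_closedBall ht
  refine K1_mp (Metric.closedBall 0 t) {w | ‖w‖ = t} (isCompact_closedBall 0 t) (K1_G g)
    (hG.usc.mono hsub) (K1_G g t) ?_ ?_ s ?_
  · intro w _ hw
    have hw' : ‖w‖ = t := hw
    rw [K1_rad g w, hw']
  · intro z hz hzt
    have hz1 : ‖z‖ ≤ t := by simpa using hz
    have hz2 : ‖z‖ < t := lt_of_le_of_ne hz1 hzt
    have hr : 0 < t - ‖z‖ := by linarith
    have hb : ∀ θ : ℝ, ‖K1_c z (t - ‖z‖) θ‖ ≤ 1 := by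
      intro θ
      unfold K1_c
      refine (norm_add_le _ _).trans ?_
      rw [norm_mul, Complex.norm_exp_ofReal_mul_I, mul_one, Complex.norm_real, Real.norm_eq_abs,
        abs_of_pos hr]
      linarith
    refine ⟨t - ‖z‖, hr, ?_, K1_ii hG _ (K1_c_cont _ _) hb 0 (2 * π), ?_⟩
    · intro w hw
      rw [Metric.mem_closedBall, dist_eq_norm] at hw
      rw [Metric.mem_closedBall, dist_zero_right]
      have := norm_sub_norm_le w z
      linarith
    · have h1 := hG.sub z ((t - ‖z‖ : ℝ) : ℂ) (by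
        rw [Complex.norm_real, Real.norm_eq_abs, abs_of_pos hr]
        linarith)
      refine h1.trans (le_of_eq ?_)
      congr 1
      apply intervalIntegral.integral_congr
      intro θ _
      show K1_G g (z + cexp (θ * I) * ((t - ‖z‖ : ℝ) : ℂ)) = K1_G g (K1_c z (t - ‖z‖) θ)
      unfold K1_c
      rw [mul_comm]
  · rw [Metric.mem_closedBall, dist_zero_right, Complex.norm_real, Real.norm_eq_abs, abs_of_nonneg hs]
    exact hst

/-- mean value property of the logarithm -/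
theorem K1_log (z : ℂ) (r : ℝ) (hr : 0 < r) (hrz : r ≤ ‖z‖) :
    ∫ θ in (0 : ℝ)..(2 * π), Real.log ‖K1_c z r θ‖ = 2 * π * Real.log ‖z‖ := by
  have h1 := circleAverage_log_norm_sub_const_eq_log_radius_add_posLog (a := 0) (c := z) hr.ne'
  have h2 : Real.log r + Real.posLog (r⁻¹ * ‖z - 0‖) = Real.log ‖z‖ := by
    have h3 : 1 ≤ r⁻¹ * ‖z‖ := by
      rw [inv_mul_eq_div, le_div_iff₀ hr]
      linarith
    rw [sub_zero, Real.posLog_eq_log (by rw [abs_of_nonneg (by linarith)]; exact h3),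
      Real.log_mul (inv_ne_zero hr.ne') (by linarith), Real.log_inv]
    ring
  rw [h2, Real.circleAverage_def] at h1
  have h4 : ∫ θ in (0 : ℝ)..(2 * π), Real.log ‖K1_c z r θ‖ =
      ∫ θ in (0 : ℝ)..(2 * π), Real.log ‖circleMap z r θ - 0‖ := by
    apply intervalIntegral.integral_congr
    intro θ _
    show Real.log ‖K1_c z r θ‖ = Real.log ‖circleMap z r θ - 0‖
    rw [sub_zero]
    rfl
  rw [h4, ← h1, smul_eq_mul, ← mul_assoc, mul_inv_cancel₀ (by positivity), one_mul]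

theorem K1_three {g : ℂ → ℝ} (hg : K1_D g) (s a b : ℝ) (hs : 0 < s) (hs1 : s < 1)
    (ha : ∀ ζ : ℂ, ‖ζ‖ = s → g ζ ≤ a) (hb : ∀ ζ : ℂ, ‖ζ‖ = 1 → g ζ ≤ b) (ζ : ℂ) (h1 : s ≤ ‖ζ‖)
    (h2 : ‖ζ‖ ≤ 1) : g ζ ≤ a + (b - a) * (Real.log (‖ζ‖ / s) / Real.log (1 / s)) := by
  have hpi : (0 : ℝ) < 2 * π := by positivity
  have hls : 0 < Real.log (1 / s) := Real.log_pos (by rw [lt_div_iff₀ hs]; linarith)
  obtain ⟨β, hβ⟩ : ∃ β : ℝ, β = (b - a) / Real.log (1 / s) := ⟨_, rfl⟩
  obtain ⟨α, hα⟩ : ∃ α : ℝ, α = a - β * Real.log s := ⟨_, rfl⟩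
  have hH : ∀ w : ℂ, s ≤ ‖w‖ → a + (b - a) * (Real.log (‖w‖ / s) / Real.log (1 / s)) =
      α + β * Real.log ‖w‖ := by
    intro w hw
    rw [Real.log_div (by linarith) hs.ne', hα, hβ]
    ring
  obtain ⟨K, hK⟩ : ∃ K : Set ℂ, K = {w | s ≤ ‖w‖ ∧ ‖w‖ ≤ 1} := ⟨_, rfl⟩
  have hKsub : K ⊆ Metric.closedBall 0 1 := by
    rw [hK]
    intro w hw
    simpa using hw.2
  have hKc : IsCompact K := by
    refine (isCompact_closedBall (0 : ℂ) 1).of_isClosed_subset ?_ hKsub
    rw [hK]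
    exact (isClosed_le continuous_const continuous_norm).inter
      (isClosed_le continuous_norm continuous_const)
  have hlogc : ContinuousOn (fun w : ℂ => -(α + β * Real.log ‖w‖)) K := by
    refine (continuousOn_const.add (continuousOn_const.mul (ContinuousOn.log
      continuous_norm.continuousOn ?_))).neg
    intro w hw
    rw [hK] at hw
    exact (lt_of_lt_of_le hs hw.1).ne'
  have husc : UpperSemicontinuousOn (fun w : ℂ => g w + -(α + β * Real.log ‖w‖)) K :=
    (hg.usc.mono hKsub).add hlogc.upperSemicontinuousOn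
  have hmain := K1_mp K {w | ‖w‖ = s ∨ ‖w‖ = 1} hKc (fun w : ℂ => g w + -(α + β * Real.log ‖w‖))
    husc 0 ?_ ?_ ζ (by rw [hK]; exact ⟨h1, h2⟩)
  · rw [hH ζ h1]
    have h3 : g ζ + -(α + β * Real.log ‖ζ‖) ≤ 0 := hmain
    linarith
  · intro w hwK hw
    have hwK' := hwK
    rw [hK] at hwK'
    show g w + -(α + β * Real.log ‖w‖) ≤ 0
    rw [← hH w hwK'.1]
    rcases hw with hw | hw
    · have h3 := ha w hw
      rw [hw, div_self hs.ne', Real.log_one]
      simp only [zero_div, mul_zero]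
      linarith
    · have h3 := hb w hw
      rw [hw, div_self hls.ne']
      linarith
  · intro z hz hzn
    have hz' := hz
    rw [hK] at hz'
    have hz1 : s < ‖z‖ := lt_of_le_of_ne hz'.1 (fun h => hzn (Or.inl h.symm))
    have hz2 : ‖z‖ < 1 := lt_of_le_of_ne hz'.2 (fun h => hzn (Or.inr h))
    obtain ⟨r, hr⟩ : ∃ r : ℝ, r = min (‖z‖ - s) (1 - ‖z‖) := ⟨_, rfl⟩
    have hr0 : 0 < r := by
      rw [hr]
      exact lt_min (by linarith) (by linarith)
    have hr1 : r ≤ ‖z‖ - s := by rw [hr]; exact min_le_left _ _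
    have hr2 : r ≤ 1 - ‖z‖ := by rw [hr]; exact min_le_right _ _
    have hballK : Metric.closedBall z r ⊆ K := by
      intro w hw
      rw [Metric.mem_closedBall, dist_eq_norm] at hw
      rw [hK]
      have h3 := norm_sub_norm_le w z
      have h4 := norm_sub_norm_le z w
      rw [norm_sub_rev] at h4
      constructor
      · linarith
      · linarith
    have hbd : ∀ θ : ℝ, ‖K1_c z r θ‖ ≤ 1 := by
      intro θ
      simpa using hKsub (hballK (K1_c_mem z r θ hr0.le))
    have hgi := K1_ii hg _ (K1_c_cont z r) hbd 0 (2 * π)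
    have hlc : Continuous (fun θ : ℝ => Real.log ‖K1_c z r θ‖) := by
      refine Continuous.log (continuous_norm.comp (K1_c_cont z r)) ?_
      intro θ
      have h3 := hballK (K1_c_mem z r θ hr0.le)
      rw [hK] at h3
      exact (lt_of_lt_of_le hs h3.1).ne'
    have hli : IntervalIntegrable (fun θ : ℝ => -(α + β * Real.log ‖K1_c z r θ‖)) volume 0 (2 * π) :=
      ((continuous_const.add (continuous_const.mul hlc)).neg).intervalIntegrable _ _
    refine ⟨r, hr0, hballK, hgi.add hli, ?_⟩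
    have h5 : ∫ θ in (0 : ℝ)..(2 * π), (g (K1_c z r θ) + -(α + β * Real.log ‖K1_c z r θ‖)) =
        (∫ θ in (0 : ℝ)..(2 * π), g (K1_c z r θ)) + -((2 * π) * (α + β * Real.log ‖z‖)) := by
      have hli2 : IntervalIntegrable (fun θ : ℝ => β * Real.log ‖K1_c z r θ‖) volume 0 (2 * π) :=
        (continuous_const.mul hlc).intervalIntegrable _ _
      rw [intervalIntegral.integral_add hgi hli, intervalIntegral.integral_neg,
        intervalIntegral.integral_add intervalIntegrable_const hli2,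
        intervalIntegral.integral_const_mul, K1_log z r hr0 (by linarith),
        intervalIntegral.integral_const]
      simp only [sub_zero, smul_eq_mul]
      ring
    show g z + -(α + β * Real.log ‖z‖) ≤ (2 * π)⁻¹ * ∫ θ in (0 : ℝ)..(2 * π),
      (g (K1_c z r θ) + -(α + β * Real.log ‖K1_c z r θ‖))
    rw [h5, mul_add]
    have h6 : (2 * π)⁻¹ * -((2 * π) * (α + β * Real.log ‖z‖)) = -(α + β * Real.log ‖z‖) := by
      field_simp
    rw [h6]
    have h7 := hg.sub z (r : ℂ) (by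
      rw [Complex.norm_real, Real.norm_eq_abs, abs_of_pos hr0]
      linarith)
    have h8 : ∫ θ in (0 : ℝ)..(2 * π), g (z + cexp (θ * I) * (r : ℂ)) =
        ∫ θ in (0 : ℝ)..(2 * π), g (K1_c z r θ) := by
      apply intervalIntegral.integral_congr
      intro θ _
      show g (z + cexp (θ * I) * (r : ℂ)) = g (K1_c z r θ)
      unfold K1_c
      rw [mul_comm]
    rw [h8] at h7
    linarith

theorem K1_mean (u : C2 → ℝ) (x ξ : C2) (s : ℝ) :
    mean u x (s • ξ) = K1_G (fun ζ => u (x + ζ • ξ)) s := by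
  unfold mean K1_G
  congr 1
  apply intervalIntegral.integral_congr
  intro θ _
  show u (x + cexp (θ * I) • s • ξ) = u (x + (cexp (θ * I) * (s : ℂ)) • ξ)
  congr 1
  rw [mul_smul]
  congr 1

theorem K1 : K1_stmt := by
  constructor
  · intro U u x ξ s t _ hu hd hs hst ht
    rw [K1_mean, K1_mean]
    exact K1_mono (K1_red U u x ξ hu hd) s t hs hst ht
  · intro U u x ξ s a b _ hu hd hs hs1 ha hb ζ h1 h2
    exact K1_three (K1_red U u x ξ hu hd) s a b hs hs1 ha hb ζ h1 h2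

end

end MAP
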