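import Pool.Agent.helper50.MA.Spec2

/-!
# Project ma, module G1: the soft truncations are smooth and omega-psh
-/

set_option autoImplicit false

open MeasureTheory Set Filter Topology Complex
open scoped ContDiff Real Manifold

namespace MAP

noncomputable section

theorem G1_D2 {u : C2 → ℝ} {x : C2} (hu : ContDiffAt ℝ 2 u x) (ξ η : C2) :
    D2 u x ξ η = fderiv ℝ (fun y => fderiv ℝ u y η) x ξ := by
  have h1 : ContDiffAt ℝ 1 (fderiv ℝ u) x := hu.fderiv_right (m := 1) (by norm_num)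
  have h2 : DifferentiableAt ℝ (fderiv ℝ u) x := h1.differentiableAt (by norm_num)
  unfold D2
  rw [fderiv_clm_apply h2 (differentiableAt_const η)]
  simp

theorem G1_local {u w : C2 → ℝ} {x : C2} (h : u =ᶠ[𝓝 x] w) (ξ η : C2) :
    D2 u x ξ η = D2 w x ξ η := by
  unfold D2
  rw [(h.fderiv (𝕜 := ℝ)).fderiv_eq]

theorem G1_near {u : C2 → ℝ} {x : C2} (hu : ContDiffAt ℝ 2 u x) :
    ∀ᶠ y in 𝓝 x, DifferentiableAt ℝ u y := by
  have h1 : ∀ᶠ y in 𝓝 x, ContDiffAt ℝ 2 u y := hu.eventually (by norm_num)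
  filter_upwards [h1] with y hy
  exact hy.differentiableAt (by norm_num)

theorem G1_fd {u : C2 → ℝ} {x : C2} (hu : ContDiffAt ℝ 2 u x) (η : C2) :
    DifferentiableAt ℝ (fun y => fderiv ℝ u y η) x := by
  have h1 : ContDiffAt ℝ 1 (fderiv ℝ u) x := hu.fderiv_right (m := 1) (by norm_num)
  have h2 : DifferentiableAt ℝ (fderiv ℝ u) x := h1.differentiableAt (by norm_num)
  exact h2.clm_apply (differentiableAt_const η)

/-- sums -/
theorem G1_add {u w : C2 → ℝ} {x : C2} (hu : ContDiffAt ℝ 2 u x) (hw : ContDiffAt ℝ 2 w x)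
    (ξ : C2) : fderiv ℝ (fun y => u y + w y) x ξ = fderiv ℝ u x ξ + fderiv ℝ w x ξ ∧
    D2 (fun y => u y + w y) x ξ ξ = D2 u x ξ ξ + D2 w x ξ ξ := by
  have d1 : DifferentiableAt ℝ u x := hu.differentiableAt (by norm_num)
  have d2 : DifferentiableAt ℝ w x := hw.differentiableAt (by norm_num)
  constructor
  · rw [fderiv_fun_add d1 d2]
    rfl
  · rw [G1_D2 (hu.add hw), G1_D2 hu, G1_D2 hw]
    have h1 : (fun y => fderiv ℝ (fun y => u y + w y) y ξ) =ᶠ[𝓝 x]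
        fun y => fderiv ℝ u y ξ + fderiv ℝ w y ξ := by
      filter_upwards [G1_near hu, G1_near hw] with y hy1 hy2
      rw [fderiv_fun_add hy1 hy2]
      rfl
    rw [h1.fderiv_eq, fderiv_fun_add (G1_fd hu ξ) (G1_fd hw ξ)]
    rfl

/-- chain rule for a function of one real variable -/
theorem G1_comp {u : C2 → ℝ} {φ : ℝ → ℝ} {x : C2} (hu : ContDiffAt ℝ 2 u x)
    (hφ : ContDiffAt ℝ 2 φ (u x)) (ξ : C2) :
    fderiv ℝ (fun y => φ (u y)) x ξ = deriv φ (u x) * fderiv ℝ u x ξ ∧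
    D2 (fun y => φ (u y)) x ξ ξ = deriv (deriv φ) (u x) * (fderiv ℝ u x ξ) ^ 2 +
      deriv φ (u x) * D2 u x ξ ξ := by
  have hc : ContDiffAt ℝ 2 (fun y => φ (u y)) x := hφ.comp x hu
  have hφn : ∀ᶠ s in 𝓝 (u x), DifferentiableAt ℝ φ s := by
    have h1 : ∀ᶠ s in 𝓝 (u x), ContDiffAt ℝ 2 φ s := hφ.eventually (by norm_num)
    filter_upwards [h1] with s hs
    exact hs.differentiableAt (by norm_num)
  have hd : ∀ y, DifferentiableAt ℝ u y → DifferentiableAt ℝ φ (u y) →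
      fderiv ℝ (fun y => φ (u y)) y ξ = deriv φ (u y) * fderiv ℝ u y ξ := by
    intro y h1 h2
    have h3 := h2.hasDerivAt.comp_hasFDerivAt y h1.hasFDerivAt
    have h4 : HasFDerivAt (fun y => φ (u y)) (deriv φ (u y) • fderiv ℝ u y) y := h3
    rw [h4.fderiv]
    rfl
  refine ⟨hd x (hu.differentiableAt (by norm_num)) hφn.self_of_nhds, ?_⟩
  rw [G1_D2 hc, G1_D2 hu]
  have hcont : ContinuousAt u x := hu.continuousAt
  have h1 : (fun y => fderiv ℝ (fun y => φ (u y)) y ξ) =ᶠ[𝓝 x]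
      fun y => deriv φ (u y) * fderiv ℝ u y ξ := by
    filter_upwards [G1_near hu, hcont.eventually hφn] with y hy1 hy2
    exact hd y hy1 hy2
  have h2 : DifferentiableAt ℝ (deriv φ) (u x) := by
    have h3 : ContDiffAt ℝ 1 (deriv φ) (u x) := by
      have h4 : ContDiffAt ℝ 1 (fderiv ℝ φ) (u x) := hφ.fderiv_right (m := 1) (by norm_num)
      have h5 : deriv φ = fun s => fderiv ℝ φ s 1 := by
        funext s
        exact (fderiv_apply_one_eq_deriv).symm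
      rw [h5]
      exact h4.clm_apply contDiffAt_const
    exact h3.differentiableAt (by norm_num)
  have h3 : HasFDerivAt (fun y => deriv φ (u y)) (deriv (deriv φ) (u x) • fderiv ℝ u x) x :=
    h2.hasDerivAt.comp_hasFDerivAt x (hu.differentiableAt (by norm_num)).hasFDerivAt
  rw [h1.fderiv_eq, fderiv_fun_mul h3.differentiableAt (G1_fd hu ξ), h3.fderiv]
  simp only [add_apply, FunLike.coe_smul, Pi.smul_apply, smul_eq_mul]
  ring

theorem G1_sq {u : C2 → ℝ} {x : C2} (hu : ContDiffAt ℝ 2 u x) (ξ : C2)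
    (h0 : D2 u x ξ ξ = 0) : fderiv ℝ (fun y => (u y) ^ 2) x ξ = 2 * u x * fderiv ℝ u x ξ ∧
    D2 (fun y => (u y) ^ 2) x ξ ξ = 2 * (fderiv ℝ u x ξ) ^ 2 := by
  have h := G1_comp (φ := fun s => s ^ 2) hu (by fun_prop) ξ
  have d1 : deriv (fun s : ℝ => s ^ 2) = fun s => 2 * s := by
    funext s
    simp
  have d2 : deriv (fun s : ℝ => 2 * s) = fun _ => 2 := by
    funext s
    simp
  rw [d1, d2] at h
  rw [h.1, h.2, h0]
  simp

theorem G1_exp {u : C2 → ℝ} {x : C2} (ε : ℝ) (hu : ContDiffAt ℝ 2 u x) (ξ : C2) :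
    fderiv ℝ (fun y => ε * Real.exp (2 * u y)) x ξ =
      2 * (ε * Real.exp (2 * u x)) * fderiv ℝ u x ξ ∧
    D2 (fun y => ε * Real.exp (2 * u y)) x ξ ξ = (ε * Real.exp (2 * u x)) *
      (4 * (fderiv ℝ u x ξ) ^ 2 + 2 * D2 u x ξ ξ) := by
  have h := G1_comp (φ := fun s => ε * Real.exp (2 * s)) hu (by fun_prop) ξ
  have d1 : ∀ c : ℝ, deriv (fun s : ℝ => c * Real.exp (2 * s)) =
      fun s => (2 * c) * Real.exp (2 * s) := by
    intro c
    funext s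
    have h1 : HasDerivAt (fun s : ℝ => c * Real.exp (2 * s)) (c * (Real.exp (2 * s) * (2 * 1))) s :=
      (((hasDerivAt_id s).const_mul 2).exp).const_mul c
    rw [h1.deriv]
    ring
  rw [d1 ε, d1 (2 * ε)] at h
  rw [h.1, h.2]
  constructor <;> ring

theorem G1_log {u : C2 → ℝ} {x : C2} (hu : ContDiffAt ℝ 2 u x) (hpos : 0 < u x) (ξ : C2) :
    D2 (fun y => (1 / 2) * Real.log (u y)) x ξ ξ =
      (1 / 2) * ((D2 u x ξ ξ) / u x - (fderiv ℝ u x ξ) ^ 2 / (u x) ^ 2) := by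
  have hl : ContDiffAt ℝ 2 (fun s : ℝ => (1 / 2) * Real.log s) (u x) :=
    contDiffAt_const.mul (Real.contDiffAt_log.2 hpos.ne')
  have h := G1_comp (φ := fun s => (1 / 2) * Real.log s) hu hl ξ
  have d1 : deriv (fun s : ℝ => (1 / 2) * Real.log s) = fun s => (1 / 2) * s⁻¹ := by
    funext s
    rw [deriv_const_mul_field, Real.deriv_log]
  have d2 : deriv (fun s : ℝ => (1 / 2) * s⁻¹) = fun s => (1 / 2) * (-(s ^ 2)⁻¹) := by
    funext s
    rw [deriv_const_mul_field, deriv_inv]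
  rw [d1, d2] at h
  rw [h.2]
  ring

/-- the main computation -/
theorem G1_main {p q ρ : C2 → ℝ} {x ξ : C2} {ε a b : ℝ} (hε : 0 < ε) (hp : ContDiffAt ℝ 2 p x)
    (hq : ContDiffAt ℝ 2 q x) (hρ : ContDiffAt ℝ 2 ρ x) (p1 : fderiv ℝ p x ξ = a)
    (q1 : fderiv ℝ q x ξ = b) (p2 : fderiv ℝ p x (I • ξ) = -b) (q2 : fderiv ℝ q x (I • ξ) = a)
    (p3 : D2 p x ξ ξ = 0) (p4 : D2 p x (I • ξ) (I • ξ) = 0) (q3 : D2 q x ξ ξ = 0)
    (q4 : D2 q x (I • ξ) (I • ξ) = 0) (hL : 0 ≤ lap ρ x ξ) :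
    0 ≤ lap (fun y => (1 / 2) * Real.log ((p y) ^ 2 + ((q y) ^ 2 + ε * Real.exp (2 * ρ y)))) x ξ := by
  have hE : ContDiffAt ℝ 2 (fun y => ε * Real.exp (2 * ρ y)) x :=
    contDiffAt_const.mul (contDiffAt_const.mul hρ).exp
  have hH1 : ContDiffAt ℝ 2 (fun y => (q y) ^ 2 + ε * Real.exp (2 * ρ y)) x := (hq.pow 2).add hE
  have hH : ContDiffAt ℝ 2 (fun y => (p y) ^ 2 + ((q y) ^ 2 + ε * Real.exp (2 * ρ y))) x :=
    (hp.pow 2).add hH1
  have hpos : 0 < (p x) ^ 2 + ((q x) ^ 2 + ε * Real.exp (2 * ρ x)) := by positivity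
  have hall : ∀ η : C2, D2 p x η η = 0 → D2 q x η η = 0 →
      fderiv ℝ (fun y => (p y) ^ 2 + ((q y) ^ 2 + ε * Real.exp (2 * ρ y))) x η =
        2 * p x * fderiv ℝ p x η + (2 * q x * fderiv ℝ q x η +
          2 * (ε * Real.exp (2 * ρ x)) * fderiv ℝ ρ x η) ∧
      D2 (fun y => (p y) ^ 2 + ((q y) ^ 2 + ε * Real.exp (2 * ρ y))) x η η =
        2 * (fderiv ℝ p x η) ^ 2 + (2 * (fderiv ℝ q x η) ^ 2 + (ε * Real.exp (2 * ρ x)) *
          (4 * (fderiv ℝ ρ x η) ^ 2 + 2 * D2 ρ x η η)) := by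
    intro η h1 h2
    have e1 := G1_add (hp.pow 2) hH1 η
    have e2 := G1_add (hq.pow 2) hE η
    have e3 := G1_sq hp η h1
    have e4 := G1_sq hq η h2
    have e5 := G1_exp ε hρ η
    rw [e1.1, e1.2, e2.1, e2.2, e3.1, e3.2, e4.1, e4.2, e5.1, e5.2]
    exact ⟨rfl, rfl⟩
  obtain ⟨u1, u2⟩ := hall ξ p3 q3
  obtain ⟨v1, v2⟩ := hall (I • ξ) p4 q4
  unfold lap at hL ⊢
  rw [G1_log hH hpos, G1_log hH hpos, u1, u2, v1, v2, p1, q1, p2, q2]
  obtain ⟨h, hh⟩ : ∃ h : ℝ, h = ε * Real.exp (2 * ρ x) := ⟨_, rfl⟩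
  have hh0 : 0 < h := by rw [hh]; positivity
  rw [← hh] at hpos ⊢
  obtain ⟨P, hP⟩ : ∃ P : ℝ, P = p x := ⟨_, rfl⟩
  obtain ⟨Q, hQ⟩ : ∃ Q : ℝ, Q = q x := ⟨_, rfl⟩
  obtain ⟨r1, hr1⟩ : ∃ r1 : ℝ, r1 = fderiv ℝ ρ x ξ := ⟨_, rfl⟩
  obtain ⟨r2, hr2⟩ : ∃ r2 : ℝ, r2 = fderiv ℝ ρ x (I • ξ) := ⟨_, rfl⟩
  obtain ⟨s1, hs1⟩ : ∃ s1 : ℝ, s1 = D2 ρ x ξ ξ := ⟨_, rfl⟩
  obtain ⟨s2, hs2⟩ : ∃ s2 : ℝ, s2 = D2 ρ x (I • ξ) (I • ξ) := ⟨_, rfl⟩
  rw [← hs1, ← hs2] at hL
  rw [← hP, ← hQ] at hpos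
  rw [← hP, ← hQ, ← hr1, ← hr2, ← hs1, ← hs2]
  obtain ⟨H, hHd⟩ : ∃ H : ℝ, H = P ^ 2 + (Q ^ 2 + h) := ⟨_, rfl⟩
  rw [← hHd] at hpos ⊢
  have key : 0 ≤ 4 * h * ((a - P * r1 - Q * r2) ^ 2 + (b - Q * r1 + P * r2) ^ 2) +
      2 * (s1 + s2) * h * H := by
    have : 0 ≤ 2 * (s1 + s2) * h * H := by positivity
    have : 0 ≤ 4 * h * ((a - P * r1 - Q * r2) ^ 2 + (b - Q * r1 + P * r2) ^ 2) := by positivity
    linarith
  have e : 1 / 2 * ((2 * a ^ 2 + (2 * b ^ 2 + h * (4 * r1 ^ 2 + 2 * s1))) / H -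
      (2 * P * a + (2 * Q * b + 2 * h * r1)) ^ 2 / H ^ 2) +
      1 / 2 * ((2 * (-b) ^ 2 + (2 * a ^ 2 + h * (4 * r2 ^ 2 + 2 * s2))) / H -
      (2 * P * (-b) + (2 * Q * a + 2 * h * r2)) ^ 2 / H ^ 2) =
      (4 * h * ((a - P * r1 - Q * r2) ^ 2 + (b - Q * r1 + P * r2) ^ 2) +
      2 * (s1 + s2) * h * H) / (2 * H ^ 2) := by
    have hH0 : H ≠ 0 := hpos.ne'
    field_simp
    rw [hHd]
    ring
  rw [e]
  exact div_nonneg key (by positivity)

theorem G1_D2clm (L : C2 →L[ℝ] ℝ) (x ξ η : C2) : D2 (fun y => L y) x ξ η = 0 := by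
  unfold D2
  have h : fderiv ℝ (fun y => L y) = fun _ => L := by
    funext y
    exact L.fderiv
  rw [h]
  simp

theorem G1_D2const (c : ℝ) (x ξ η : C2) : D2 (fun _ => c) x ξ η = 0 := by
  unfold D2
  simp

/-- the local description of `S` -/
theorem G1_loc {X : Type} [TopologicalSpace X] (K : KSD X) (i : Fin K.n) :
    ∃ p q : C2 → ℝ, ContDiff ℝ ∞ p ∧ ContDiff ℝ ∞ q ∧
      (∀ y ∈ (K.e i).target, K.S ((K.e i).symm y) =
        ((p y) ^ 2 + (q y) ^ 2) * Real.exp (-2 * K.ρ i y)) ∧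
      ∀ x ξ : C2, fderiv ℝ p x (I • ξ) = -(fderiv ℝ q x ξ) ∧
        fderiv ℝ q x (I • ξ) = fderiv ℝ p x ξ ∧ D2 p x ξ ξ = 0 ∧ D2 q x ξ ξ = 0 := by
  rcases K.S_loc i with h | h
  · refine ⟨fun _ => 1, fun _ => 0, contDiff_const, contDiff_const, ?_, ?_⟩
    · intro y hy
      rw [h y hy]
      ring
    · intro x ξ
      refine ⟨by simp, by simp, G1_D2const _ _ _ _, G1_D2const _ _ _ _⟩
  · refine ⟨fun y => (Complex.reCLM.comp (ContinuousLinearMap.snd ℝ ℂ ℂ)) y,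
      fun y => (Complex.imCLM.comp (ContinuousLinearMap.snd ℝ ℂ ℂ)) y,
      ContinuousLinearMap.contDiff _, ContinuousLinearMap.contDiff _, ?_, ?_⟩
    · intro y hy
      rw [h y hy]
      congr 1
      simp only [ContinuousLinearMap.comp_apply, ContinuousLinearMap.coe_snd', Complex.reCLM_apply,
        Complex.imCLM_apply]
      rw [Complex.sq_norm, Complex.normSq_apply]
      ring
    · intro x ξ
      refine ⟨?_, ?_, G1_D2clm _ _ _ _, G1_D2clm _ _ _ _⟩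
      · rw [ContinuousLinearMap.fderiv, ContinuousLinearMap.fderiv]
        simp [ContinuousLinearMap.comp_apply]
      · rw [ContinuousLinearMap.fderiv, ContinuousLinearMap.fderiv]
        simp [ContinuousLinearMap.comp_apply]

theorem G1 : G1_stmt := by
  intro X _ _ _ K
  have hcov : ∀ x : X, ∃ i, x ∈ (K.e i).source := fun x => by
    obtain ⟨i, hi, _⟩ := K.cover x
    exact ⟨i, hi⟩
  have hnn : ∀ x, 0 ≤ K.S x := by
    intro x
    obtain ⟨i, hi⟩ := hcov x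
    obtain ⟨p, q, hp, hq, hS, _⟩ := G1_loc K i
    have h1 := hS _ ((K.e i).map_source hi)
    rw [(K.e i).left_inv hi] at h1
    rw [h1]
    positivity
  refine ⟨?_, hnn, ?_⟩
  · rw [continuous_iff_continuousAt]
    intro x
    obtain ⟨i, hi⟩ := hcov x
    obtain ⟨p, q, hp, hq, hS, _⟩ := G1_loc K i
    have hρ : ContinuousAt (K.ρ i) (K.e i x) :=
      ((K.ρ_smooth i).contDiffAt ((K.e i).open_target.mem_nhds ((K.e i).map_source hi))).continuousAt
    have h1 : ContinuousAt (fun y => ((p y) ^ 2 + (q y) ^ 2) * Real.exp (-2 * K.ρ i y)) (K.e i x) :=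
      ((hp.continuous.continuousAt.pow 2).add (hq.continuous.continuousAt.pow 2)).mul
        (Real.continuous_exp.continuousAt.comp (continuousAt_const.mul hρ))
    have h2 : ContinuousAt (fun z => ((p (K.e i z)) ^ 2 + (q (K.e i z)) ^ 2) *
        Real.exp (-2 * K.ρ i (K.e i z))) x :=
      ContinuousAt.comp (f := K.e i) (g := fun y => ((p y) ^ 2 + (q y) ^ 2) *
        Real.exp (-2 * K.ρ i y)) h1 ((K.e i).continuousAt hi)
    refine h2.congr ?_
    filter_upwards [(K.e i).open_source.mem_nhds hi] with z hz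
    have h3 := hS _ ((K.e i).map_source hz)
    rw [(K.e i).left_inv hz] at h3
    exact h3.symm
  · intro Λ _
    obtain ⟨ε, hε⟩ : ∃ ε : ℝ, ε = Real.exp (-2 * Λ) := ⟨_, rfl⟩
    have hε0 : 0 < ε := by rw [hε]; exact Real.exp_pos _
    constructor
    · intro i
      obtain ⟨p, q, hp, hq, hS, _⟩ := G1_loc K i
      have h1 : ContDiffOn ℝ ∞ (fun y => (1 / 2) * Real.log (((p y) ^ 2 + (q y) ^ 2) *
          Real.exp (-2 * K.ρ i y) + ε)) (K.e i).target := by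
        refine contDiffOn_const.mul (ContDiffOn.log ?_ ?_)
        · exact ((((hp.pow 2).add (hq.pow 2)).contDiffOn).mul
            (contDiffOn_const.mul (K.ρ_smooth i)).exp).add contDiffOn_const
        · intro y hy
          have : 0 < ((p y) ^ 2 + (q y) ^ 2) * Real.exp (-2 * K.ρ i y) + ε := by positivity
          exact this.ne'
      refine h1.congr ?_
      intro y hy
      show soft K.S Λ ((K.e i).symm y) = _
      unfold soft
      rw [hS y hy, ← hε]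
    · intro i y hy ξ
      obtain ⟨p, q, hp, hq, hS, hder⟩ := G1_loc K i
      have hρ : ContDiffAt ℝ 2 (K.ρ i) y :=
        ((K.ρ_smooth i).contDiffAt ((K.e i).open_target.mem_nhds hy)).of_le (WithTop.coe_le_coe.2 (le_top : (2 : ℕ∞) ≤ ⊤))
      have hL : 0 ≤ lap (K.ρ i) y ξ := by
        by_cases h0 : ξ = 0
        · subst h0
          unfold lap D2
          simp
        · exact (K.ρ_pos i y hy ξ h0).le
      have hp2 : ContDiffAt ℝ 2 p y := hp.contDiffAt.of_le (WithTop.coe_le_coe.2 (le_top : (2 : ℕ∞) ≤ ⊤))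
      have hq2 : ContDiffAt ℝ 2 q y := hq.contDiffAt.of_le (WithTop.coe_le_coe.2 (le_top : (2 : ℕ∞) ≤ ⊤))
      have h1 := G1_main (ξ := ξ) hε0 hp2 hq2 hρ rfl rfl (hder y ξ).1 (hder y ξ).2.1
        (hder y ξ).2.2.1 (hder y (I • ξ)).2.2.1 (hder y ξ).2.2.2 (hder y (I • ξ)).2.2.2 hL
      have h2 : K.toKS.pot i (soft K.S Λ) =ᶠ[𝓝 y] (fun y => (1 / 2) *
          Real.log ((p y) ^ 2 + ((q y) ^ 2 + ε * Real.exp (2 * K.ρ i y)))) := by
        filter_upwards [(K.e i).open_target.mem_nhds hy] with z hz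
        show K.ρ i z + soft K.S Λ ((K.e i).symm z) = _
        unfold soft
        rw [hS z hz, ← hε]
        have h3 : ((p z) ^ 2 + (q z) ^ 2) * Real.exp (-2 * K.ρ i z) + ε =
            Real.exp (-2 * K.ρ i z) * ((p z) ^ 2 + ((q z) ^ 2 + ε * Real.exp (2 * K.ρ i z))) := by
          have h4 : Real.exp (-2 * K.ρ i z) * Real.exp (2 * K.ρ i z) = 1 := by
            rw [← Real.exp_add]
            simp
          linear_combination (-ε) * h4
        have h5 : 0 < (p z) ^ 2 + ((q z) ^ 2 + ε * Real.exp (2 * K.ρ i z)) := by positivity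
        rw [h3, Real.log_mul (Real.exp_pos _).ne' h5.ne', Real.log_exp]
        ring
      unfold lap at h1 ⊢
      rw [G1_local h2, G1_local h2]
      exact h1

end

end MAP
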