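import Pool.Agent.helper50.MA.SpecI
import Pool.Agent.helper15.MA.G1

/-!
# Project ma, module I4: extension of data from finitely many charts to all holomorphic charts
-/

set_option autoImplicit false

open MeasureTheory Set Filter Topology Complex
open scoped ContDiff Real Manifold

namespace DMAProblem

noncomputable section

section
variable {X : Type} [TopologicalSpace X] [ChartedSpace C2 X]

/-- overlap of two charts -/
def I4_ov (e e' : OpenPartialHomeomorph X C2) : Set C2 := {y | y ∈ e.target ∧ e.symm y ∈ e'.source}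

omit [ChartedSpace C2 X] in
theorem I4_ov_open (e e' : OpenPartialHomeomorph X C2) : IsOpen (I4_ov e e') :=
  e.symm.isOpen_inter_preimage e'.open_source

theorem I4_hol {e e' : OpenPartialHomeomorph X C2} (he : e ∈ HolCharts X) (he' : e' ∈ HolCharts X) :
    ContDiffOn ℂ ∞ (tr e e') (I4_ov e e') := by
  have h1 : e.symm ≫ₕ e' ∈ contDiffGroupoid ∞ (modelWithCornersSelf ℂ C2) :=
    StructureGroupoid.compatible_of_mem_maximalAtlas he he'
  rw [contDiffGroupoid, mem_groupoid_of_pregroupoid] at h1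
  have h2 := h1.1
  simp only [contDiffPregroupoid, modelWithCornersSelf_coe, modelWithCornersSelf_coe_symm,
    Function.comp_def, id, Set.preimage_id, Set.range_id, Set.inter_univ] at h2
  refine h2.congr_mono ?_ ?_
  · intro y hy
    rfl
  · intro y hy
    exact ⟨hy.1, hy.2⟩

theorem I4_holAt {e e' : OpenPartialHomeomorph X C2} (he : e ∈ HolCharts X) (he' : e' ∈ HolCharts X)
    {y : C2} (hy : y ∈ I4_ov e e') : ContDiffAt ℂ ∞ (tr e e') y :=
  (I4_hol he he').contDiffAt ((I4_ov_open e e').mem_nhds hy)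

/-- chain rule -/
theorem I4_chain {e e' e'' : OpenPartialHomeomorph X C2} (he : e ∈ HolCharts X)
    (he' : e' ∈ HolCharts X) (he'' : e'' ∈ HolCharts X) {y : C2} (hy : y ∈ I4_ov e e')
    (hy' : e.symm y ∈ e''.source) :
    fderiv ℂ (tr e e'') y = (fderiv ℂ (tr e' e'') (tr e e' y)).comp (fderiv ℂ (tr e e') y) ∧
      tr e e'' y = tr e' e'' (tr e e' y) := by
  have h0 : ∀ z ∈ I4_ov e e', tr e' e'' (tr e e' z) = tr e e'' z := by
    intro z hz
    unfold tr
    rw [e'.left_inv hz.2]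
  have hz : tr e e' y ∈ I4_ov e' e'' := by
    refine ⟨e'.map_source hy.2, ?_⟩
    show e'.symm (e' (e.symm y)) ∈ e''.source
    rw [e'.left_inv hy.2]
    exact hy'
  refine ⟨?_, (h0 y hy).symm⟩
  have h1 : tr e e'' =ᶠ[𝓝 y] fun z => tr e' e'' (tr e e' z) := by
    filter_upwards [(I4_ov_open e e').mem_nhds hy] with z hz
    exact (h0 z hz).symm
  rw [h1.fderiv_eq]
  exact fderiv_comp y ((I4_holAt he' he'' hz).differentiableAt (by simp))
    ((I4_holAt he he' hy).differentiableAt (by simp))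

omit [ChartedSpace C2 X] in
theorem I4_id {e : OpenPartialHomeomorph X C2} {y : C2} (hy : y ∈ e.target) :
    fderiv ℂ (tr e e) y = ContinuousLinearMap.id ℂ C2 ∧ tr e e y = y := by
  have h0 : ∀ z ∈ e.target, tr e e z = z := fun z hz => e.right_inv hz
  refine ⟨?_, h0 y hy⟩
  have h1 : tr e e =ᶠ[𝓝 y] fun z => z := by
    filter_upwards [e.open_target.mem_nhds hy] with z hz
    exact h0 z hz
  rw [h1.fderiv_eq]
  exact fderiv_fun_id

/-- the inverse of the derivative -/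
theorem I4_inv {e e' : OpenPartialHomeomorph X C2} (he : e ∈ HolCharts X) (he' : e' ∈ HolCharts X)
    {y : C2} (hy : y ∈ I4_ov e e') :
    (∀ ξ : C2, fderiv ℂ (tr e' e) (tr e e' y) (fderiv ℂ (tr e e') y ξ) = ξ) ∧
    (∀ ξ : C2, fderiv ℂ (tr e e') y (fderiv ℂ (tr e' e) (tr e e' y) ξ) = ξ) := by
  have hys : e.symm y ∈ e.source := e.map_target hy.1
  constructor
  · intro ξ
    have h1 := (I4_chain he he' he hy hys).1
    rw [(I4_id hy.1).1] at h1
    have h2 := congrArg (fun L : C2 →L[ℂ] C2 => L ξ) h1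
    exact h2.symm
  · intro ξ
    have hz : tr e e' y ∈ I4_ov e' e := by
      refine ⟨e'.map_source hy.2, ?_⟩
      show e'.symm (e' (e.symm y)) ∈ e.source
      rw [e'.left_inv hy.2]
      exact hys
    have hzs : e'.symm (tr e e' y) ∈ e'.source := e'.map_target (e'.map_source hy.2)
    have h1 := (I4_chain he' he he' hz hzs).1
    have hback : tr e' e (tr e e' y) = y := by
      rw [← (I4_chain he he' he hy hys).2]
      exact (I4_id hy.1).2
    have hzt : tr e e' y ∈ e'.target := e'.map_source hy.2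
    rw [(I4_id hzt).1, hback] at h1
    have h2 := congrArg (fun L : C2 →L[ℂ] C2 => L ξ) h1
    exact h2.symm

theorem I4_jac_chain {e e' e'' : OpenPartialHomeomorph X C2} (he : e ∈ HolCharts X)
    (he' : e' ∈ HolCharts X) (he'' : e'' ∈ HolCharts X) {y : C2} (hy : y ∈ I4_ov e e')
    (hy' : e.symm y ∈ e''.source) :
    jac e e'' y = jac e' e'' (tr e e' y) * jac e e' y := by
  unfold jac
  rw [(I4_chain he he' he'' hy hy').1]
  unfold ContinuousLinearMap.det
  rw [← LinearMap.det_comp]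
  rfl

theorem I4_jac_ne {e e' : OpenPartialHomeomorph X C2} (he : e ∈ HolCharts X)
    (he' : e' ∈ HolCharts X) {y : C2} (hy : y ∈ I4_ov e e') : jac e e' y ≠ 0 := by
  have h1 := I4_jac_chain he he' he hy (e.map_target hy.1)
  have h2 : jac e e y = 1 := by
    unfold jac
    rw [(I4_id hy.1).1]
    unfold ContinuousLinearMap.det
    exact LinearMap.det_id
  rw [h2] at h1
  intro h3
  rw [h3, mul_zero] at h1
  exact one_ne_zero h1

theorem I4_det (A : C2 →L[ℂ] C2) :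
    A.det = (A (1, 0)).1 * (A (0, 1)).2 - (A (0, 1)).1 * (A (1, 0)).2 := by
  unfold ContinuousLinearMap.det
  rw [← LinearMap.det_toMatrix (Module.Basis.finTwoProd ℂ), Matrix.det_fin_two]
  simp [LinearMap.toMatrix_apply]

theorem I4_jac_hol {e e' : OpenPartialHomeomorph X C2} (he : e ∈ HolCharts X)
    (he' : e' ∈ HolCharts X) : ContDiffOn ℂ ∞ (jac e e') (I4_ov e e') := by
  have h1 : ContDiffOn ℂ ∞ (fderiv ℂ (tr e e')) (I4_ov e e') :=
    (I4_hol he he').fderiv_of_isOpen (I4_ov_open e e') (by simp)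
  have h2 : ∀ ξ : C2, ContDiffOn ℂ ∞ (fun y => fderiv ℂ (tr e e') y ξ) (I4_ov e e') :=
    fun ξ => h1.clm_apply contDiffOn_const
  have h3 : jac e e' = fun y => (fderiv ℂ (tr e e') y (1, 0)).1 * (fderiv ℂ (tr e e') y (0, 1)).2 -
      (fderiv ℂ (tr e e') y (0, 1)).1 * (fderiv ℂ (tr e e') y (1, 0)).2 := by
    funext y
    exact I4_det _
  rw [h3]
  exact ((h2 _).fst.mul (h2 _).snd).sub ((h2 _).fst.mul (h2 _).snd)

omit [ChartedSpace C2 X] in
theorem I4_ov_open' (e e' : OpenPartialHomeomorph X C2) {y : C2} (hy : y ∈ I4_ov e e') :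
    I4_ov e e' ∈ 𝓝 y := (I4_ov_open e e').mem_nhds hy

end

theorem I4_two : (2 : WithTop ℕ∞) ≤ ∞ := WithTop.coe_le_coe.2 (le_top : (2 : ℕ∞) ≤ ⊤)

theorem I4_lap_local {u w : C2 → ℝ} {y : C2} (h : u =ᶠ[𝓝 y] w) (ξ : C2) :
    lap u y ξ = lap w y ξ := by
  have h1 : fderiv ℝ (fderiv ℝ u) y = fderiv ℝ (fderiv ℝ w) y := (h.fderiv).fderiv_eq
  simp only [lap, D2, h1]

theorem I4_lap_add {u w : C2 → ℝ} {y : C2} (hu : ContDiffAt ℝ 2 u y) (hw : ContDiffAt ℝ 2 w y)
    (ξ : C2) : lap (fun z => u z + w z) y ξ = lap u y ξ + lap w y ξ := by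
  have h1 := (MAP.G1_add hu hw ξ).2
  have h2 := (MAP.G1_add hu hw (I • ξ)).2
  show MAP.D2 (fun z => u z + w z) y ξ ξ + MAP.D2 (fun z => u z + w z) y (I • ξ) (I • ξ) =
    (MAP.D2 u y ξ ξ + MAP.D2 u y (I • ξ) (I • ξ)) + (MAP.D2 w y ξ ξ + MAP.D2 w y (I • ξ) (I • ξ))
  rw [h1, h2]
  ring

theorem I4_plh (hA6 : MAP.A6_stmt) {g : C2 → ℂ} {V : Set C2} (hV : IsOpen V)
    (hg : ContDiffOn ℂ ∞ g V) {y : C2} (hy : y ∈ V) (ξ : C2) :
    lap (fun z => (g z).re) y ξ = 0 := by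
  have hF : ContDiffOn ℂ 2 (fun z => ((g z, 0) : C2)) V :=
    (hg.of_le I4_two).prodMk contDiffOn_const
  have hu : ContDiffOn ℝ 2 (fun w : C2 => (Complex.reCLM.comp (ContinuousLinearMap.fst ℝ ℂ ℂ)) w)
      Set.univ := (ContinuousLinearMap.contDiff _).contDiffOn
  have h1 := hA6.1 Set.univ V (fun z => ((g z, 0) : C2))
    (fun w : C2 => (Complex.reCLM.comp (ContinuousLinearMap.fst ℝ ℂ ℂ)) w) isOpen_univ hV hF
    (fun _ _ => Set.mem_univ _) hu y hy ξ
  have h2 : ∀ (x η : C2), MAP.lap (fun w : C2 =>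
      (Complex.reCLM.comp (ContinuousLinearMap.fst ℝ ℂ ℂ)) w) x η = 0 := by
    intro x η
    unfold MAP.lap
    rw [MAP.G1_D2clm, MAP.G1_D2clm, add_zero]
  rw [h2] at h1
  exact h1

theorem I4_logJ (hA6 : MAP.A6_stmt) {J : C2 → ℂ} {V : Set C2} (hV : IsOpen V)
    (hJ : ContDiffOn ℂ ∞ J V) {y : C2} (hy : y ∈ V) (hJy : J y ≠ 0) (ξ : C2) :
    lap (fun z => -(1 / 2) * Real.log (‖J z‖ ^ 2)) y ξ = 0 := by
  obtain ⟨c, hc⟩ : ∃ c : ℂ, c = (starRingEnd ℂ) (J y) := ⟨_, rfl⟩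
  have hc0 : c ≠ 0 := by
    rw [hc]
    simpa using hJy
  have hcy : c * J y ∈ Complex.slitPlane := by
    have h1 : c * J y = ((‖J y‖ ^ 2 : ℝ) : ℂ) := by
      rw [hc, mul_comm, Complex.mul_conj, Complex.normSq_eq_norm_sq]
    rw [h1, Complex.ofReal_mem_slitPlane]
    have := norm_pos_iff.2 hJy
    positivity
  have hcJ : ContDiffOn ℂ ∞ (fun z => c * J z) V := contDiffOn_const.mul hJ
  obtain ⟨W, hW⟩ : ∃ W : Set C2, W = V ∩ (fun z => c * J z) ⁻¹' Complex.slitPlane := ⟨_, rfl⟩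
  have hWo : IsOpen W := by
    rw [hW]
    exact hcJ.continuousOn.isOpen_inter_preimage hV Complex.isOpen_slitPlane
  have hWV : W ⊆ V := by rw [hW]; exact Set.inter_subset_left
  have hyW : y ∈ W := by rw [hW]; exact ⟨hy, hcy⟩
  have hg : ContDiffOn ℂ ∞ (fun z => -Complex.log (c * J z) + ((Real.log ‖c‖ : ℝ) : ℂ)) W := by
    refine ContDiffOn.add (ContDiffOn.neg ?_) contDiffOn_const
    intro z hz
    have hz' := hz
    rw [hW] at hz'
    exact (Complex.contDiffAt_log hz'.2).comp_contDiffWithinAt z ((hcJ.mono hWV) z hz)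
  have h1 := I4_plh hA6 hWo hg hyW ξ
  rw [← h1]
  apply I4_lap_local
  filter_upwards [hWo.mem_nhds hyW] with z hz
  rw [hW] at hz
  have hz0 : c * J z ≠ 0 := Complex.slitPlane_ne_zero hz.2
  have hJz : J z ≠ 0 := fun h => hz0 (by rw [h, mul_zero])
  rw [Complex.add_re, Complex.neg_re, Complex.log_re, Complex.ofReal_re, norm_mul,
    Real.log_mul (norm_ne_zero_iff.2 hc0) (norm_ne_zero_iff.2 hJz), Real.log_pow]
  push_cast
  ring

theorem I4 (hA6 : MAP.A6_stmt) : I4_stmt := by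
  classical
  intro X _ _ _ m E v s hE hcov hv hvp hs hcyc hric hsm hz0
  choose κ hκ using hcov
  obtain ⟨vol, hvold⟩ : ∃ vol : OpenPartialHomeomorph X C2 → C2 → ℝ, vol = fun e y =>
    ‖jac e (E (κ (e.symm y))) y‖ ^ 2 * v (κ (e.symm y)) (tr e (E (κ (e.symm y))) y) := ⟨_, rfl⟩
  obtain ⟨sec, hsecd⟩ : ∃ sec : OpenPartialHomeomorph X C2 → C2 → ℂ, sec = fun e y =>
    (jac e (E (κ (e.symm y))) y)⁻¹ * s (κ (e.symm y)) (tr e (E (κ (e.symm y))) y) := ⟨_, rfl⟩
  -- independence of the choice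
  have hvol : ∀ e ∈ HolCharts X, ∀ y ∈ e.target, ∀ k, e.symm y ∈ (E k).source →
      vol e y = ‖jac e (E k) y‖ ^ 2 * v k (tr e (E k) y) := by
    intro e he y hy k hk
    obtain ⟨l, hl'⟩ : ∃ l, l = κ (e.symm y) := ⟨_, rfl⟩
    have hl : e.symm y ∈ (E l).source := by rw [hl']; exact hκ _
    have c1 := I4_jac_chain he (hE k) (hE l) ⟨hy, hk⟩ hl
    have c2 := (I4_chain he (hE k) (hE l) ⟨hy, hk⟩ hl).2
    have hyk : tr e (E k) y ∈ (E k).target := (E k).map_source hk
    have hyl : (E k).symm (tr e (E k) y) ∈ (E l).source := by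
      show (E k).symm ((E k) (e.symm y)) ∈ (E l).source
      rw [(E k).left_inv hk]
      exact hl
    have c3 := (hcyc k l _ hyk hyl).1
    rw [hvold]
    show ‖jac e (E (κ (e.symm y))) y‖ ^ 2 * v (κ (e.symm y)) (tr e (E (κ (e.symm y))) y) = _
    rw [← hl', c1, c2, c3, norm_mul]
    ring
  have hsec : ∀ e ∈ HolCharts X, ∀ y ∈ e.target, ∀ k, e.symm y ∈ (E k).source →
      sec e y = (jac e (E k) y)⁻¹ * s k (tr e (E k) y) := by
    intro e he y hy k hk
    obtain ⟨l, hl'⟩ : ∃ l, l = κ (e.symm y) := ⟨_, rfl⟩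
    have hl : e.symm y ∈ (E l).source := by rw [hl']; exact hκ _
    have c1 := I4_jac_chain he (hE k) (hE l) ⟨hy, hk⟩ hl
    have c2 := (I4_chain he (hE k) (hE l) ⟨hy, hk⟩ hl).2
    have hyk : tr e (E k) y ∈ (E k).target := (E k).map_source hk
    have hyl : (E k).symm (tr e (E k) y) ∈ (E l).source := by
      show (E k).symm ((E k) (e.symm y)) ∈ (E l).source
      rw [(E k).left_inv hk]
      exact hl
    have c3 := (hcyc k l _ hyk hyl).2
    have hne : jac (E k) (E l) (tr e (E k) y) ≠ 0 := I4_jac_ne (hE k) (hE l) ⟨hyk, hyl⟩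
    have hne2 : jac e (E k) y ≠ 0 := I4_jac_ne he (hE k) ⟨hy, hk⟩
    rw [hsecd]
    show (jac e (E (κ (e.symm y))) y)⁻¹ * s (κ (e.symm y)) (tr e (E (κ (e.symm y))) y) = _
    rw [← hl', c1, c2, c3]
    field_simp
  -- the composed data near a point
  have hF : ∀ e ∈ HolCharts X, ∀ k, ∀ y ∈ I4_ov e (E k), tr e (E k) y ∈ (E k).target := by
    intro e he k y hy
    exact (E k).map_source hy.2
  have hFat : ∀ e ∈ HolCharts X, ∀ k, ∀ y ∈ I4_ov e (E k), ContDiffAt ℝ ∞ (tr e (E k)) y :=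
    fun e he k y hy => (I4_holAt he (hE k) hy).restrict_scalars ℝ
  have hJat : ∀ e ∈ HolCharts X, ∀ k, ∀ y ∈ I4_ov e (E k), ContDiffAt ℂ ∞ (jac e (E k)) y :=
    fun e he k y hy => (I4_jac_hol he (hE k)).contDiffAt (I4_ov_open' e (E k) hy)
  have hJ2 : ∀ e ∈ HolCharts X, ∀ k, ∀ y ∈ I4_ov e (E k),
      ContDiffAt ℝ ∞ (fun z => ‖jac e (E k) z‖ ^ 2) y :=
    fun e he k y hy => ((hJat e he k y hy).restrict_scalars ℝ).norm_sq ℝ
  have hvF : ∀ e ∈ HolCharts X, ∀ k, ∀ y ∈ I4_ov e (E k),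
      ContDiffAt ℝ ∞ (fun z => v k (tr e (E k) z)) y := by
    intro e he k y hy
    have h1 : ContDiffAt ℝ ∞ (v k) (tr e (E k) y) :=
      (hv k).contDiffAt ((E k).open_target.mem_nhds (hF e he k y hy))
    exact h1.comp y (hFat e he k y hy)
  have hsF : ∀ e ∈ HolCharts X, ∀ k, ∀ y ∈ I4_ov e (E k),
      ContDiffAt ℂ ∞ (fun z => s k (tr e (E k) z)) y := by
    intro e he k y hy
    have h1 : ContDiffAt ℂ ∞ (s k) (tr e (E k) y) :=
      (hs k).contDiffAt ((E k).open_target.mem_nhds (hF e he k y hy))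
    exact h1.comp y (I4_holAt he (hE k) hy)
  have hvolnear : ∀ e ∈ HolCharts X, ∀ k, ∀ y ∈ I4_ov e (E k),
      vol e =ᶠ[𝓝 y] fun z => ‖jac e (E k) z‖ ^ 2 * v k (tr e (E k) z) := by
    intro e he k y hy
    filter_upwards [I4_ov_open' e (E k) hy] with z hz
    exact hvol e he z hz.1 k hz.2
  have hsecnear : ∀ e ∈ HolCharts X, ∀ k, ∀ y ∈ I4_ov e (E k),
      sec e =ᶠ[𝓝 y] fun z => (jac e (E k) z)⁻¹ * s k (tr e (E k) z) := by
    intro e he k y hy
    filter_upwards [I4_ov_open' e (E k) hy] with z hz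
    exact hsec e he z hz.1 k hz.2
  have hEvol : ∀ k, ∀ y ∈ (E k).target, vol (E k) y = v k y := by
    intro k y hy
    rw [hvol (E k) (hE k) y hy k ((E k).map_target hy)]
    have h1 := I4_id hy
    rw [h1.2]
    have h2 : jac (E k) (E k) y = 1 := by
      unfold jac
      rw [h1.1]
      unfold ContinuousLinearMap.det
      exact LinearMap.det_id
    rw [h2]
    simp
  have hEsec : ∀ k, ∀ y ∈ (E k).target, sec (E k) y = s k y := by
    intro k y hy
    rw [hsec (E k) (hE k) y hy k ((E k).map_target hy)]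
    have h1 := I4_id hy
    rw [h1.2]
    have h2 : jac (E k) (E k) y = 1 := by
      unfold jac
      rw [h1.1]
      unfold ContinuousLinearMap.det
      exact LinearMap.det_id
    rw [h2]
    simp
  refine ⟨{ vol := vol, vol_smooth := ?_, vol_pos := ?_, vol_change := ?_, ricci_pos := ?_,
            sec := sec, sec_hol := ?_, sec_change := ?_, sec_smooth := ?_, sec_zero := ?_ },
    fun k y hy => ⟨hEvol k y hy, hEsec k y hy⟩⟩
  · intro e he y hy
    have hk : y ∈ I4_ov e (E (κ (e.symm y))) := ⟨hy, hκ _⟩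
    have h1 := ((hJ2 e he _ y hk).mul (hvF e he _ y hk)).congr_of_eventuallyEq
      (hvolnear e he _ y hk)
    exact h1.contDiffWithinAt
  · intro e he y hy
    have hk : y ∈ I4_ov e (E (κ (e.symm y))) := ⟨hy, hκ _⟩
    rw [hvol e he y hy _ hk.2]
    have h1 := norm_pos_iff.2 (I4_jac_ne he (hE _) hk)
    have h2 := hvp _ _ (hF e he _ y hk)
    positivity
  · intro e he e' he' y hy hy'
    have hk : y ∈ I4_ov e (E (κ (e.symm y))) := ⟨hy, hκ _⟩
    obtain ⟨k, hkd⟩ : ∃ k, k = κ (e.symm y) := ⟨_, rfl⟩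
    rw [← hkd] at hk
    have hy't : tr e e' y ∈ e'.target := e'.map_source hy'
    have hy's : e'.symm (tr e e' y) ∈ (E k).source := by
      show e'.symm (e' (e.symm y)) ∈ (E k).source
      rw [e'.left_inv hy']
      exact hk.2
    rw [hvol e he y hy k hk.2, hvol e' he' _ hy't k hy's,
      I4_jac_chain he he' (hE k) ⟨hy, hy'⟩ hk.2, (I4_chain he he' (hE k) ⟨hy, hy'⟩ hk.2).2, norm_mul]
    ring
  · intro e he y hy ξ hξ
    have hk : y ∈ I4_ov e (E (κ (e.symm y))) := ⟨hy, hκ _⟩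
    obtain ⟨k, hkd⟩ : ∃ k, k = κ (e.symm y) := ⟨_, rfl⟩
    rw [← hkd] at hk
    have h1 : (fun z => -(1 / 2) * Real.log (vol e z)) =ᶠ[𝓝 y]
        fun z => -(1 / 2) * Real.log (‖jac e (E k) z‖ ^ 2) +
          -(1 / 2) * Real.log (v k (tr e (E k) z)) := by
      filter_upwards [I4_ov_open' e (E k) hk] with z hz
      rw [hvol e he z hz.1 k hz.2, Real.log_mul
        (pow_ne_zero 2 (norm_ne_zero_iff.2 (I4_jac_ne he (hE k) hz)))
        (hvp k _ (hF e he k z hz)).ne']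
      ring
    have s1 : ContDiffAt ℝ 2 (fun z => -(1 / 2) * Real.log (‖jac e (E k) z‖ ^ 2)) y :=
      contDiffAt_const.mul (((hJ2 e he k y hk).of_le I4_two).log
        (pow_ne_zero 2 (norm_ne_zero_iff.2 (I4_jac_ne he (hE k) hk))))
    have s2 : ContDiffAt ℝ 2 (fun z => -(1 / 2) * Real.log (v k (tr e (E k) z))) y :=
      contDiffAt_const.mul (((hvF e he k y hk).of_le I4_two).log (hvp k _ (hF e he k y hk)).ne')
    rw [I4_lap_local h1, I4_lap_add s1 s2, I4_logJ hA6 (I4_ov_open e (E k)) (I4_jac_hol he (hE k)) hk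
      (I4_jac_ne he (hE k) hk), zero_add]
    have hu : ContDiffOn ℝ 2 (fun z => -(1 / 2) * Real.log (v k z)) (E k).target :=
      contDiffOn_const.mul (((hv k).of_le I4_two).log fun z hz => (hvp k z hz).ne')
    have h2 := hA6.1 (E k).target (I4_ov e (E k)) (tr e (E k))
      (fun z => -(1 / 2) * Real.log (v k z)) (E k).open_target (I4_ov_open e (E k))
      ((I4_hol he (hE k)).of_le I4_two) (fun z hz => hF e he k z hz) hu y hk ξ
    have h3 : lap (fun z => -(1 / 2) * Real.log (v k (tr e (E k) z))) y ξ =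
      lap (fun z => -(1 / 2) * Real.log (v k z)) (tr e (E k) y) (fderiv ℂ (tr e (E k)) y ξ) := h2
    rw [h3]
    refine hric k _ (hF e he k y hk) _ ?_
    intro h4
    have h5 := (I4_inv he (hE k) hk).1 ξ
    rw [h4, map_zero] at h5
    exact hξ h5.symm
  · intro e he y hy
    have hk : y ∈ I4_ov e (E (κ (e.symm y))) := ⟨hy, hκ _⟩
    have h1 := (((hJat e he _ y hk).inv (I4_jac_ne he (hE _) hk)).mul
      (hsF e he _ y hk)).congr_of_eventuallyEq (hsecnear e he _ y hk)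
    exact h1.contDiffWithinAt
  · intro e he e' he' y hy hy'
    have hk : y ∈ I4_ov e (E (κ (e.symm y))) := ⟨hy, hκ _⟩
    obtain ⟨k, hkd⟩ : ∃ k, k = κ (e.symm y) := ⟨_, rfl⟩
    rw [← hkd] at hk
    have hy't : tr e e' y ∈ e'.target := e'.map_source hy'
    have hy's : e'.symm (tr e e' y) ∈ (E k).source := by
      show e'.symm (e' (e.symm y)) ∈ (E k).source
      rw [e'.left_inv hy']
      exact hk.2
    have hne : jac e e' y ≠ 0 := I4_jac_ne he he' ⟨hy, hy'⟩
    have hne2 : jac e' (E k) (tr e e' y) ≠ 0 := I4_jac_ne he' (hE k) ⟨hy't, hy's⟩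
    rw [hsec e he y hy k hk.2, hsec e' he' _ hy't k hy's,
      I4_jac_chain he he' (hE k) ⟨hy, hy'⟩ hk.2, (I4_chain he he' (hE k) ⟨hy, hy'⟩ hk.2).2]
    field_simp
  · intro e he y hy hzero hd
    have hk : y ∈ I4_ov e (E (κ (e.symm y))) := ⟨hy, hκ _⟩
    obtain ⟨k, hkd⟩ : ∃ k, k = κ (e.symm y) := ⟨_, rfl⟩
    rw [← hkd] at hk
    have hJne := I4_jac_ne he (hE k) hk
    have hs0 : s k (tr e (E k) y) = 0 := by
      rw [hsec e he y hy k hk.2] at hzero
      exact (mul_eq_zero.1 hzero).resolve_left (inv_ne_zero hJne)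
    apply hsm k _ (hF e he k y hk) hs0
    have d1 : DifferentiableAt ℂ (fun z => (jac e (E k) z)⁻¹) y :=
      ((hJat e he k y hk).inv hJne).differentiableAt (by simp)
    have d2 : DifferentiableAt ℂ (fun z => s k (tr e (E k) z)) y :=
      (hsF e he k y hk).differentiableAt (by simp)
    have h1 : fderiv ℂ (sec e) y = (jac e (E k) y)⁻¹ • fderiv ℂ (fun z => s k (tr e (E k) z)) y := by
      rw [(hsecnear e he k y hk).fderiv_eq, fderiv_fun_mul d1 d2, hs0]
      refine (congrArg (fun L => (jac e (E k) y)⁻¹ • fderiv ℂ (fun z => s k (tr e (E k) z)) y + L)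
        (zero_smul ℂ _)).trans (add_zero _)
    rw [h1] at hd
    have h2 : fderiv ℂ (fun z => s k (tr e (E k) z)) y = 0 :=
      (smul_eq_zero.1 hd).resolve_left (inv_ne_zero hJne)
    have h3 : fderiv ℂ (fun z => s k (tr e (E k) z)) y =
        (fderiv ℂ (s k) (tr e (E k) y)).comp (fderiv ℂ (tr e (E k)) y) :=
      fderiv_comp y (((hs k).contDiffAt ((E k).open_target.mem_nhds
        (hF e he k y hk))).differentiableAt (by simp)) ((I4_holAt he (hE k) hk).differentiableAt (by simp))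
    rw [h3] at h2
    refine ContinuousLinearMap.ext fun η => ?_
    have h4 := (I4_inv he (hE k) hk).2 η
    have h5 := congrArg (fun L : C2 →L[ℂ] ℂ => L (fderiv ℂ (tr (E k) e) (tr e (E k) y) η)) h2
    have h6 : fderiv ℂ (s k) (tr e (E k) y) (fderiv ℂ (tr e (E k)) y
      (fderiv ℂ (tr (E k) e) (tr e (E k) y) η)) = 0 := h5
    rw [h4] at h6
    exact h6
  · obtain ⟨k, y, hy, h1⟩ := hz0
    exact ⟨E k, hE k, y, hy, by rw [hEsec k y hy]; exact h1⟩

end

end DMAProblem
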