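import Pool.Agent.helper50.MA.Spec1

/-!
# Project ma, module B7: the local Stokes formula
-/

set_option autoImplicit false

open MeasureTheory Set Filter Topology Complex
open scoped ContDiff Real Manifold

namespace MAP

noncomputable section

/-- directional derivative -/
def B7_dd (v : C2) (u : C2 → ℝ) : C2 → ℝ := fun x => fderiv ℝ u x v

theorem B7_smooth {u : C2 → ℝ} (hu : ContDiff ℝ ∞ u) (v : C2) : ContDiff ℝ ∞ (B7_dd v u) := by
  have h1 : ContDiff ℝ ∞ (fderiv ℝ u) := hu.fderiv_right (m := ∞) (by simp)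
  exact h1.clm_apply contDiff_const

theorem B7_diff {u : C2 → ℝ} (hu : ContDiff ℝ ∞ u) : Differentiable ℝ u :=
  hu.differentiable (by simp)

theorem B7_D2 {u : C2 → ℝ} (hu : ContDiff ℝ ∞ u) (x ξ η : C2) :
    D2 u x ξ η = B7_dd ξ (B7_dd η u) x := by
  have h1 : ContDiff ℝ ∞ (fderiv ℝ u) := hu.fderiv_right (m := ∞) (by simp)
  have h2 : DifferentiableAt ℝ (fderiv ℝ u) x := (h1.differentiable (by simp)) x
  unfold D2 B7_dd
  rw [fderiv_clm_apply h2 (differentiableAt_const η)]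
  simp

theorem B7_comm {u : C2 → ℝ} (hu : ContDiff ℝ ∞ u) (x v w : C2) :
    B7_dd v (B7_dd w u) x = B7_dd w (B7_dd v u) x := by
  rw [← B7_D2 hu, ← B7_D2 hu]
  refine (hu.contDiffAt.isSymmSndFDerivAt ?_) v w
  rw [minSmoothness_of_isRCLikeNormedField]
  exact WithTop.coe_le_coe.2 (le_top : (2 : ℕ∞) ≤ ⊤)

theorem B7_add {u w : C2 → ℝ} (hu : ContDiff ℝ ∞ u) (hw : ContDiff ℝ ∞ w) (v x : C2) :
    B7_dd v (fun y => u y + w y) x = B7_dd v u x + B7_dd v w x := by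
  unfold B7_dd
  rw [fderiv_fun_add (B7_diff hu x) (B7_diff hw x)]
  rfl

theorem B7_sub {u w : C2 → ℝ} (hu : ContDiff ℝ ∞ u) (hw : ContDiff ℝ ∞ w) (v x : C2) :
    B7_dd v (fun y => u y - w y) x = B7_dd v u x - B7_dd v w x := by
  unfold B7_dd
  rw [fderiv_fun_sub (B7_diff hu x) (B7_diff hw x)]
  rfl

theorem B7_mul {u w : C2 → ℝ} (hu : ContDiff ℝ ∞ u) (hw : ContDiff ℝ ∞ w) (v x : C2) :
    B7_dd v (fun y => u y * w y) x = B7_dd v u x * w x + u x * B7_dd v w x := by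
  unfold B7_dd
  rw [fderiv_fun_mul (B7_diff hu x) (B7_diff hw x)]
  simp
  ring

theorem B7_cmul {u : C2 → ℝ} (hu : ContDiff ℝ ∞ u) (s : ℝ) (v x : C2) :
    B7_dd v (fun y => s * u y) x = s * B7_dd v u x := by
  unfold B7_dd
  rw [fderiv_const_mul (B7_diff hu x)]
  simp

/-- the components of the current -/
def B7_X (s t : ℝ) (φ p1 q1 p2 q2 p3 q3 : C2 → ℝ) : C2 → ℝ :=
  fun y => φ y * (p1 y * q1 y + (s * (p2 y * q2 y) + t * (p3 y * q3 y)))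

theorem B7_Xs {φ p1 q1 p2 q2 p3 q3 : C2 → ℝ} (s t : ℝ) (h0 : ContDiff ℝ ∞ φ)
    (h1 : ContDiff ℝ ∞ p1) (h1' : ContDiff ℝ ∞ q1) (h2 : ContDiff ℝ ∞ p2) (h2' : ContDiff ℝ ∞ q2)
    (h3 : ContDiff ℝ ∞ p3) (h3' : ContDiff ℝ ∞ q3) :
    ContDiff ℝ ∞ (B7_X s t φ p1 q1 p2 q2 p3 q3) :=
  h0.mul ((h1.mul h1').add ((contDiff_const.mul (h2.mul h2')).add (contDiff_const.mul (h3.mul h3'))))

theorem B7_Xd {φ p1 q1 p2 q2 p3 q3 : C2 → ℝ} (s t : ℝ) (h0 : ContDiff ℝ ∞ φ)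
    (h1 : ContDiff ℝ ∞ p1) (h1' : ContDiff ℝ ∞ q1) (h2 : ContDiff ℝ ∞ p2) (h2' : ContDiff ℝ ∞ q2)
    (h3 : ContDiff ℝ ∞ p3) (h3' : ContDiff ℝ ∞ q3) (v x : C2) :
    B7_dd v (B7_X s t φ p1 q1 p2 q2 p3 q3) x =
      B7_dd v φ x * (p1 x * q1 x + (s * (p2 x * q2 x) + t * (p3 x * q3 x))) +
      φ x * ((B7_dd v p1 x * q1 x + p1 x * B7_dd v q1 x) +
        (s * (B7_dd v p2 x * q2 x + p2 x * B7_dd v q2 x) +
          t * (B7_dd v p3 x * q3 x + p3 x * B7_dd v q3 x))) := by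
  unfold B7_X
  rw [B7_mul h0 ((h1.mul h1').add
      ((contDiff_const.mul (h2.mul h2')).add (contDiff_const.mul (h3.mul h3')))),
    B7_add (h1.mul h1') ((contDiff_const.mul (h2.mul h2')).add (contDiff_const.mul (h3.mul h3'))),
    B7_mul h1 h1', B7_add (contDiff_const.mul (h2.mul h2')) (contDiff_const.mul (h3.mul h3')),
    B7_cmul (h2.mul h2'), B7_cmul (h3.mul h3'), B7_mul h2 h2', B7_mul h3 h3']

/-- the coefficients -/
def B7_A (g : C2 → ℝ) : C2 → ℝ := fun x => B7_dd e1 (B7_dd e1 g) x +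
  B7_dd (I • e1) (B7_dd (I • e1) g) x
def B7_C (g : C2 → ℝ) : C2 → ℝ := fun x => B7_dd e2 (B7_dd e2 g) x +
  B7_dd (I • e2) (B7_dd (I • e2) g) x
def B7_B (g : C2 → ℝ) : C2 → ℝ := fun x => B7_dd e1 (B7_dd e2 g) x +
  B7_dd (I • e1) (B7_dd (I • e2) g) x
def B7_B' (g : C2 → ℝ) : C2 → ℝ := fun x => B7_dd e1 (B7_dd (I • e2) g) x -
  B7_dd (I • e1) (B7_dd e2 g) x

theorem B7_dens {u v : C2 → ℝ} (hu : ContDiff ℝ ∞ u) (hv : ContDiff ℝ ∞ v) (x : C2) :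
    dens u v x = (B7_A u x * B7_C v x + B7_C u x * B7_A v x - 2 * (B7_B u x * B7_B v x) -
      2 * (B7_B' u x * B7_B' v x)) / (4 * π ^ 2) := by
  unfold dens hA hC hB hB' lap B7_A B7_C B7_B B7_B'
  simp only [B7_D2 hu, B7_D2 hv]

theorem B7_As {g : C2 → ℝ} (hg : ContDiff ℝ ∞ g) : ContDiff ℝ ∞ (B7_A g) :=
  (B7_smooth (B7_smooth hg _) _).add (B7_smooth (B7_smooth hg _) _)
theorem B7_Cs {g : C2 → ℝ} (hg : ContDiff ℝ ∞ g) : ContDiff ℝ ∞ (B7_C g) :=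
  (B7_smooth (B7_smooth hg _) _).add (B7_smooth (B7_smooth hg _) _)
theorem B7_Bs {g : C2 → ℝ} (hg : ContDiff ℝ ∞ g) : ContDiff ℝ ∞ (B7_B g) :=
  (B7_smooth (B7_smooth hg _) _).add (B7_smooth (B7_smooth hg _) _)
theorem B7_B's {g : C2 → ℝ} (hg : ContDiff ℝ ∞ g) : ContDiff ℝ ∞ (B7_B' g) :=
  (B7_smooth (B7_smooth hg _) _).sub (B7_smooth (B7_smooth hg _) _)

/-- third derivatives -/
theorem B7_Ad {g : C2 → ℝ} (hg : ContDiff ℝ ∞ g) (v x : C2) : B7_dd v (B7_A g) x =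
    B7_dd v (B7_dd e1 (B7_dd e1 g)) x + B7_dd v (B7_dd (I • e1) (B7_dd (I • e1) g)) x :=
  B7_add (B7_smooth (B7_smooth hg _) _) (B7_smooth (B7_smooth hg _) _) v x
theorem B7_Cd {g : C2 → ℝ} (hg : ContDiff ℝ ∞ g) (v x : C2) : B7_dd v (B7_C g) x =
    B7_dd v (B7_dd e2 (B7_dd e2 g)) x + B7_dd v (B7_dd (I • e2) (B7_dd (I • e2) g)) x :=
  B7_add (B7_smooth (B7_smooth hg _) _) (B7_smooth (B7_smooth hg _) _) v x
theorem B7_Bd {g : C2 → ℝ} (hg : ContDiff ℝ ∞ g) (v x : C2) : B7_dd v (B7_B g) x =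
    B7_dd v (B7_dd e1 (B7_dd e2 g)) x + B7_dd v (B7_dd (I • e1) (B7_dd (I • e2) g)) x :=
  B7_add (B7_smooth (B7_smooth hg _) _) (B7_smooth (B7_smooth hg _) _) v x
theorem B7_B'd {g : C2 → ℝ} (hg : ContDiff ℝ ∞ g) (v x : C2) : B7_dd v (B7_B' g) x =
    B7_dd v (B7_dd e1 (B7_dd (I • e2) g)) x - B7_dd v (B7_dd (I • e1) (B7_dd e2 g)) x :=
  B7_sub (B7_smooth (B7_smooth hg _) _) (B7_smooth (B7_smooth hg _) _) v x

/-- the bilinear form of the first derivatives -/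
def B7_Q (g φ ψ : C2 → ℝ) : C2 → ℝ := fun x =>
  B7_dd e1 φ x * (B7_C g x * B7_dd e1 ψ x - B7_B g x * B7_dd e2 ψ x -
    B7_B' g x * B7_dd (I • e2) ψ x) +
  B7_dd (I • e1) φ x * (B7_C g x * B7_dd (I • e1) ψ x - B7_B g x * B7_dd (I • e2) ψ x +
    B7_B' g x * B7_dd e2 ψ x) +
  B7_dd e2 φ x * (B7_A g x * B7_dd e2 ψ x - B7_B g x * B7_dd e1 ψ x +
    B7_B' g x * B7_dd (I • e1) ψ x) +
  B7_dd (I • e2) φ x * (B7_A g x * B7_dd (I • e2) ψ x - B7_B g x * B7_dd (I • e1) ψ x -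
    B7_B' g x * B7_dd e1 ψ x)

theorem B7_Qsymm (g φ ψ : C2 → ℝ) (x : C2) : B7_Q g φ ψ x = B7_Q g ψ φ x := by
  unfold B7_Q
  ring

/-- the four components -/
def B7_X1 (g φ ψ : C2 → ℝ) : C2 → ℝ := B7_X (-1) (-1) φ (B7_C g) (B7_dd e1 ψ) (B7_B g)
  (B7_dd e2 ψ) (B7_B' g) (B7_dd (I • e2) ψ)
def B7_X2 (g φ ψ : C2 → ℝ) : C2 → ℝ := B7_X (-1) 1 φ (B7_C g) (B7_dd (I • e1) ψ) (B7_B g)
  (B7_dd (I • e2) ψ) (B7_B' g) (B7_dd e2 ψ)
def B7_X3 (g φ ψ : C2 → ℝ) : C2 → ℝ := B7_X (-1) 1 φ (B7_A g) (B7_dd e2 ψ) (B7_B g)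
  (B7_dd e1 ψ) (B7_B' g) (B7_dd (I • e1) ψ)
def B7_X4 (g φ ψ : C2 → ℝ) : C2 → ℝ := B7_X (-1) (-1) φ (B7_A g) (B7_dd (I • e2) ψ) (B7_B g)
  (B7_dd (I • e1) ψ) (B7_B' g) (B7_dd e1 ψ)

theorem B7_point {g φ ψ : C2 → ℝ} (hg : ContDiff ℝ ∞ g) (hφ : ContDiff ℝ ∞ φ)
    (hψ : ContDiff ℝ ∞ ψ) (x : C2) :
    B7_dd e1 (B7_X1 g φ ψ) x + B7_dd (I • e1) (B7_X2 g φ ψ) x + B7_dd e2 (B7_X3 g φ ψ) x +
      B7_dd (I • e2) (B7_X4 g φ ψ) x = (4 * π ^ 2) * (φ x * dens ψ g x) + B7_Q g φ ψ x := by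
  have hA := B7_As hg
  have hB := B7_Bs hg
  have hC := B7_Cs hg
  have hB' := B7_B's hg
  have hψ1 := fun v => B7_smooth hψ v
  have hpi : (4 * π ^ 2) ≠ 0 := by positivity
  rw [B7_dens hψ hg]
  unfold B7_X1 B7_X2 B7_X3 B7_X4
  rw [B7_Xd _ _ hφ hC (hψ1 _) hB (hψ1 _) hB' (hψ1 _), B7_Xd _ _ hφ hC (hψ1 _) hB (hψ1 _) hB' (hψ1 _),
    B7_Xd _ _ hφ hA (hψ1 _) hB (hψ1 _) hB' (hψ1 _), B7_Xd _ _ hφ hA (hψ1 _) hB (hψ1 _) hB' (hψ1 _)]
  have e : (4 * π ^ 2) * (φ x * ((B7_A ψ x * B7_C g x + B7_C ψ x * B7_A g x -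
      2 * (B7_B ψ x * B7_B g x) - 2 * (B7_B' ψ x * B7_B' g x)) / (4 * π ^ 2))) =
      φ x * (B7_A ψ x * B7_C g x + B7_C ψ x * B7_A g x -
      2 * (B7_B ψ x * B7_B g x) - 2 * (B7_B' ψ x * B7_B' g x)) := by
    field_simp
  rw [e]
  -- the second and third derivatives commute
  have c2 : ∀ v w : C2, B7_dd v (B7_dd w ψ) x = B7_dd w (B7_dd v ψ) x := fun v w => B7_comm hψ x v w
  have t1 : ∀ v w z : C2, B7_dd v (B7_dd w (B7_dd z g)) x = B7_dd w (B7_dd v (B7_dd z g)) x :=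
    fun v w z => B7_comm (B7_smooth hg z) x v w
  have t2 : ∀ v w z : C2, B7_dd v (B7_dd w (B7_dd z g)) x = B7_dd v (B7_dd z (B7_dd w g)) x := by
    intro v w z
    have h1 : B7_dd w (B7_dd z g) = B7_dd z (B7_dd w g) := funext fun y => B7_comm hg y w z
    rw [h1]
  have D1 : B7_dd e1 (B7_C g) x - B7_dd e2 (B7_B g) x - B7_dd (I • e2) (B7_B' g) x = 0 := by
    rw [B7_Cd hg, B7_Bd hg, B7_B'd hg]
    linarith [t1 e1 e2 e2, t1 e1 (I • e2) (I • e2), t1 e2 (I • e1) (I • e2),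
      t2 (I • e1) e2 (I • e2), t1 (I • e1) (I • e2) e2]
  have D2 : B7_dd (I • e1) (B7_C g) x - B7_dd (I • e2) (B7_B g) x + B7_dd e2 (B7_B' g) x = 0 := by
    rw [B7_Cd hg, B7_Bd hg, B7_B'd hg]
    linarith [t1 (I • e1) e2 e2, t1 (I • e1) (I • e2) (I • e2), t1 (I • e2) e1 e2,
      t2 e1 (I • e2) e2, t1 e1 e2 (I • e2)]
  have D3 : B7_dd e2 (B7_A g) x - B7_dd e1 (B7_B g) x + B7_dd (I • e1) (B7_B' g) x = 0 := by
    rw [B7_Ad hg, B7_Bd hg, B7_B'd hg]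
    linarith [t1 e2 e1 e1, t2 e1 e2 e1, t1 e2 (I • e1) (I • e1), t2 (I • e1) e2 (I • e1),
      t1 e1 (I • e1) (I • e2)]
  have D4 : B7_dd (I • e2) (B7_A g) x - B7_dd (I • e1) (B7_B g) x - B7_dd e1 (B7_B' g) x = 0 := by
    rw [B7_Ad hg, B7_Bd hg, B7_B'd hg]
    linarith [t1 (I • e2) e1 e1, t2 e1 (I • e2) e1, t1 (I • e2) (I • e1) (I • e1),
      t2 (I • e1) (I • e2) (I • e1), t1 (I • e1) e1 e2]
  have eA : B7_A ψ x = B7_dd e1 (B7_dd e1 ψ) x + B7_dd (I • e1) (B7_dd (I • e1) ψ) x := rfl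
  have eC : B7_C ψ x = B7_dd e2 (B7_dd e2 ψ) x + B7_dd (I • e2) (B7_dd (I • e2) ψ) x := rfl
  have eB : B7_B ψ x = B7_dd e1 (B7_dd e2 ψ) x + B7_dd (I • e1) (B7_dd (I • e2) ψ) x := rfl
  have eB' : B7_B' ψ x = B7_dd e1 (B7_dd (I • e2) ψ) x - B7_dd (I • e1) (B7_dd e2 ψ) x := rfl
  rw [eA, eB, eC, eB']
  unfold B7_Q
  linear_combination (φ x * B7_dd e1 ψ x) * D1 + (φ x * B7_dd (I • e1) ψ x) * D2 +
    (φ x * B7_dd e2 ψ x) * D3 + (φ x * B7_dd (I • e2) ψ x) * D4 -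
    (φ x * B7_B g x) * (c2 e2 e1) - (φ x * B7_B g x) * (c2 (I • e2) (I • e1)) +
    (φ x * B7_B' g x) * (c2 e2 (I • e1)) - (φ x * B7_B' g x) * (c2 (I • e2) e1)

theorem B7_haar : (volume : Measure C2).IsAddHaarMeasure := by
  have h : (volume : Measure C2) = (volume : Measure ℂ).prod (volume : Measure ℂ) := rfl
  rw [h]
  infer_instance

/-- the integral of a directional derivative vanishes -/
theorem B7_int {X : C2 → ℝ} (hX : ContDiff ℝ ∞ X) (hc : HasCompactSupport X) (v : C2) :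
    Integrable (B7_dd v X) ∧ ∫ x, B7_dd v X x = 0 := by
  have h1 : HasCompactSupport (B7_dd v X) := by
    have := hc.fderiv (𝕜 := ℝ)
    refine this.mono ?_
    intro x hx
    rw [Function.mem_support] at hx ⊢
    intro h0
    apply hx
    unfold B7_dd
    rw [h0]
    rfl
  have h2 : Integrable (B7_dd v X) := (B7_smooth hX v).continuous.integrable_of_hasCompactSupport h1
  refine ⟨h2, ?_⟩
  have h3 : Integrable X := hX.continuous.integrable_of_hasCompactSupport hc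
  have := B7_haar
  have h5 : Integrable (fun x => (1 : ℝ) * fderiv ℝ X x v) := by
    simp only [one_mul]
    exact h2
  have h4 := integral_mul_fderiv_eq_neg_fderiv_mul_of_integrable (𝕜 := ℝ) (μ := (volume : Measure C2))
    (f := fun _ : C2 => (1 : ℝ)) (g := X) (v := v) (by simp) h5 (by simpa using h3)
    (fun x _ => differentiableAt_const _) (fun x _ => (B7_diff hX) x)
  simp only [one_mul] at h4
  unfold B7_dd
  rw [h4]
  simp

theorem B7_Xc {φ p1 q1 p2 q2 p3 q3 : C2 → ℝ} (s t : ℝ) (h : HasCompactSupport φ) :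
    HasCompactSupport (B7_X s t φ p1 q1 p2 q2 p3 q3) := by
  unfold B7_X
  exact h.mul_right

theorem B7_Xc' {K : Set C2} {φ p1 q1 p2 q2 p3 q3 : C2 → ℝ} (s t : ℝ) (hK : IsCompact K)
    (h1 : ∀ x, x ∉ K → q1 x = 0) (h2 : ∀ x, x ∉ K → q2 x = 0) (h3 : ∀ x, x ∉ K → q3 x = 0) :
    HasCompactSupport (B7_X s t φ p1 q1 p2 q2 p3 q3) := by
  refine HasCompactSupport.intro hK ?_
  intro x hx
  unfold B7_X
  rw [h1 x hx, h2 x hx, h3 x hx]
  ring

theorem B7_ddc {ψ : C2 → ℝ} (v x : C2) (hx : x ∉ tsupport ψ) : B7_dd v ψ x = 0 := by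
  have h1 : ψ =ᶠ[𝓝 x] fun _ => 0 := by
    have h2 := (isClosed_tsupport ψ).isOpen_compl.mem_nhds hx
    filter_upwards [h2] with y hy
    exact image_eq_zero_of_notMem_tsupport hy
  unfold B7_dd
  rw [h1.fderiv_eq]
  simp

theorem B7_ibp {g φ ψ : C2 → ℝ} (hg : ContDiff ℝ ∞ g) (hφ : ContDiff ℝ ∞ φ)
    (hψ : ContDiff ℝ ∞ ψ) (hc : HasCompactSupport φ ∨ HasCompactSupport ψ) :
    Integrable (fun x => (4 * π ^ 2) * (φ x * dens ψ g x) + B7_Q g φ ψ x) ∧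
    ∫ x, ((4 * π ^ 2) * (φ x * dens ψ g x) + B7_Q g φ ψ x) = 0 := by
  have hA := B7_As hg
  have hB := B7_Bs hg
  have hC := B7_Cs hg
  have hB' := B7_B's hg
  have hψ1 := fun v => B7_smooth hψ v
  have s1 : ContDiff ℝ ∞ (B7_X1 g φ ψ) := B7_Xs _ _ hφ hC (hψ1 _) hB (hψ1 _) hB' (hψ1 _)
  have s2 : ContDiff ℝ ∞ (B7_X2 g φ ψ) := B7_Xs _ _ hφ hC (hψ1 _) hB (hψ1 _) hB' (hψ1 _)
  have s3 : ContDiff ℝ ∞ (B7_X3 g φ ψ) := B7_Xs _ _ hφ hA (hψ1 _) hB (hψ1 _) hB' (hψ1 _)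
  have s4 : ContDiff ℝ ∞ (B7_X4 g φ ψ) := B7_Xs _ _ hφ hA (hψ1 _) hB (hψ1 _) hB' (hψ1 _)
  have c1 : HasCompactSupport (B7_X1 g φ ψ) := by
    rcases hc with hc | hc
    · exact B7_Xc _ _ hc
    · exact B7_Xc' _ _ hc (B7_ddc _) (B7_ddc _) (B7_ddc _)
  have c2 : HasCompactSupport (B7_X2 g φ ψ) := by
    rcases hc with hc | hc
    · exact B7_Xc _ _ hc
    · exact B7_Xc' _ _ hc (B7_ddc _) (B7_ddc _) (B7_ddc _)
  have c3 : HasCompactSupport (B7_X3 g φ ψ) := by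
    rcases hc with hc | hc
    · exact B7_Xc _ _ hc
    · exact B7_Xc' _ _ hc (B7_ddc _) (B7_ddc _) (B7_ddc _)
  have c4 : HasCompactSupport (B7_X4 g φ ψ) := by
    rcases hc with hc | hc
    · exact B7_Xc _ _ hc
    · exact B7_Xc' _ _ hc (B7_ddc _) (B7_ddc _) (B7_ddc _)
  have i1 := B7_int s1 c1 e1
  have i2 := B7_int s2 c2 (I • e1)
  have i3 := B7_int s3 c3 e2
  have i4 := B7_int s4 c4 (I • e2)
  have hp : (fun x => (4 * π ^ 2) * (φ x * dens ψ g x) + B7_Q g φ ψ x) =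
      fun x => B7_dd e1 (B7_X1 g φ ψ) x + B7_dd (I • e1) (B7_X2 g φ ψ) x +
        B7_dd e2 (B7_X3 g φ ψ) x + B7_dd (I • e2) (B7_X4 g φ ψ) x :=
    funext fun x => (B7_point hg hφ hψ x).symm
  rw [hp]
  refine ⟨((i1.1.add i2.1).add i3.1).add i4.1, ?_⟩
  rw [integral_add, integral_add, integral_add, i1.2, i2.2, i3.2, i4.2]
  · simp
  · exact i1.1
  · exact i2.1
  · exact i1.1.add i2.1
  · exact i3.1
  · exact (i1.1.add i2.1).add i3.1
  · exact i4.1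

theorem B7_global {f g h : C2 → ℝ} (hf : ContDiff ℝ ∞ f) (hg : ContDiff ℝ ∞ g)
    (hh : ContDiff ℝ ∞ h) (hc : HasCompactSupport f) :
    ∫ x, h x * dens f g x = ∫ x, f x * dens h g x := by
  have h1 := B7_ibp hg hh hf (Or.inr hc)
  have h2 := B7_ibp hg hf hh (Or.inl hc)
  have h3 := integral_sub h1.1 h2.1
  rw [h1.2, h2.2, sub_zero] at h3
  have h4 : (fun x => ((4 * π ^ 2) * (h x * dens f g x) + B7_Q g h f x) -
      ((4 * π ^ 2) * (f x * dens h g x) + B7_Q g f h x)) =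
      fun x => (4 * π ^ 2) * (h x * dens f g x - f x * dens h g x) := by
    funext x
    rw [B7_Qsymm g h f x]
    ring
  rw [h4, integral_const_mul] at h3
  have hpi : (4 * π ^ 2) ≠ 0 := by positivity
  have h5 := (mul_eq_zero.1 h3).resolve_left hpi
  -- integrability of both terms
  have hsm : ∀ u v : C2 → ℝ, ContDiff ℝ ∞ u → ContDiff ℝ ∞ v → Continuous (dens u v) := by
    intro u v hu hv
    have e : dens u v = fun x => (B7_A u x * B7_C v x + B7_C u x * B7_A v x -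
      2 * (B7_B u x * B7_B v x) - 2 * (B7_B' u x * B7_B' v x)) / (4 * π ^ 2) :=
      funext fun x => B7_dens hu hv x
    rw [e]
    have a1 := (B7_As hu).continuous
    have a2 := (B7_Bs hu).continuous
    have a3 := (B7_Cs hu).continuous
    have a4 := (B7_B's hu).continuous
    have b1 := (B7_As hv).continuous
    have b2 := (B7_Bs hv).continuous
    have b3 := (B7_Cs hv).continuous
    have b4 := (B7_B's hv).continuous
    fun_prop
  have i1 : Integrable (fun x => f x * dens h g x) :=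
    (hf.continuous.mul (hsm h g hh hg)).integrable_of_hasCompactSupport hc.mul_right
  have i2 : Integrable (fun x => h x * dens f g x) := by
    refine (hh.continuous.mul (hsm f g hf hg)).integrable_of_hasCompactSupport ?_
    refine HasCompactSupport.intro hc ?_
    intro x hx
    have e : ∀ v : C2, ∀ y, y ∉ tsupport f → B7_dd v f y = 0 := fun v y hy => B7_ddc v y hy
    have e' : ∀ v w : C2, B7_dd v (B7_dd w f) x = 0 := by
      intro v w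
      have h1 : B7_dd w f =ᶠ[𝓝 x] fun _ => 0 := by
        have h2 := (isClosed_tsupport f).isOpen_compl.mem_nhds hx
        filter_upwards [h2] with y hy
        exact e w y hy
      show fderiv ℝ (B7_dd w f) x v = 0
      rw [h1.fderiv_eq]
      simp
    rw [Pi.mul_apply, B7_dens hf hg]
    unfold B7_A B7_B B7_C B7_B'
    simp only [e']
    simp
  rw [integral_sub i2 i1] at h5
  linarith

theorem B7_local {u w : C2 → ℝ} {x : C2} (h : u =ᶠ[𝓝 x] w) (ξ η : C2) :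
    D2 u x ξ η = D2 w x ξ η := by
  unfold D2
  rw [(h.fderiv (𝕜 := ℝ)).fderiv_eq]

theorem B7_dens_local {u w g g' : C2 → ℝ} {x : C2} (h : u =ᶠ[𝓝 x] w) (h' : g =ᶠ[𝓝 x] g') :
    dens u g x = dens w g' x := by
  unfold dens hA hB hC hB' lap
  simp only [B7_local h, B7_local h']

theorem B7_dens_zero {f g : C2 → ℝ} {x : C2} (hx : x ∉ tsupport f) : dens f g x = 0 := by
  have h1 : f =ᶠ[𝓝 x] fun _ => (0 : ℝ) := by
    have h2 := (isClosed_tsupport f).isOpen_compl.mem_nhds hx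
    filter_upwards [h2] with y hy
    exact image_eq_zero_of_notMem_tsupport hy
  have h2 : ∀ ξ η : C2, D2 f x ξ η = 0 := by
    intro ξ η
    rw [B7_local h1]
    unfold D2
    simp
  unfold dens hA hB hC hB' lap
  simp only [h2]
  simp

/-- cut-off -/
theorem B7_cut {U K : Set C2} (hU : IsOpen U) (hK : IsCompact K) (hKU : K ⊆ U) :
    ∃ χ : C2 → ℝ, (∀ x ∈ K, χ =ᶠ[𝓝 x] fun _ => 1) ∧
      ∀ g : C2 → ℝ, ContDiffOn ℝ ∞ g U → ContDiff ℝ ∞ (fun x => χ x * g x) := by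
  obtain ⟨L, hL, hKL, hLU⟩ := exists_compact_between hK hU hKU
  obtain ⟨χ, h1, h2, h3⟩ := exists_contMDiffMap_one_nhds_of_subset_interior (n := ⊤)
    𝓘(ℝ, C2) hK.isClosed hKL
  have hχ : ContDiff ℝ ∞ (χ : C2 → ℝ) := χ.contMDiff.contDiff
  refine ⟨χ, ?_, ?_⟩
  · intro x hx
    exact h1.filter_mono (nhds_le_nhdsSet hx)
  · intro g hg
    rw [contDiff_iff_contDiffAt]
    intro x
    by_cases hx : x ∈ L
    · exact hχ.contDiffAt.mul (hg.contDiffAt (hU.mem_nhds (hLU hx)))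
    · have h4 : (fun x => χ x * g x) =ᶠ[𝓝 x] fun _ => 0 := by
        have h5 := hL.isClosed.isOpen_compl.mem_nhds hx
        filter_upwards [h5] with y hy
        rw [h2 y hy, zero_mul]
      exact contDiffAt_const.congr_of_eventuallyEq h4

theorem B7 : B7_stmt := by
  intro U f g h hU hf hc hs hg hh
  obtain ⟨χ, h1, h2⟩ := B7_cut hU hc hs
  have h3 := B7_global hf (h2 g hg) (h2 h hh) hc
  have e1 : ∀ u : C2 → ℝ, ∀ x ∈ tsupport f, (fun x => χ x * u x) =ᶠ[𝓝 x] u := by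
    intro u x hx
    filter_upwards [h1 x hx] with y hy
    rw [hy, one_mul]
  have e2 : (fun x => (χ x * h x) * dens f (fun x => χ x * g x) x) = fun x => h x * dens f g x := by
    funext x
    by_cases hx : x ∈ tsupport f
    · rw [B7_dens_local (Filter.EventuallyEq.refl _ f) (e1 g x hx), (e1 h x hx).eq_of_nhds]
    · rw [B7_dens_zero hx, B7_dens_zero hx, mul_zero, mul_zero]
  have e3 : (fun x => f x * dens (fun x => χ x * h x) (fun x => χ x * g x) x) =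
      fun x => f x * dens h g x := by
    funext x
    by_cases hx : x ∈ tsupport f
    · rw [B7_dens_local (e1 h x hx) (e1 g x hx)]
    · rw [image_eq_zero_of_notMem_tsupport hx, zero_mul, zero_mul]
  rw [e2, e3] at h3
  exact h3

end

end MAP
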