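import Pool.Agent.helper45.MA.S1
import Pool.Agent.helper97.MA.S4
import Pool.Agent.helper15.MA.G1

/-!
# Project ma, module G2: uniform bound of the integrals of the soft truncations
-/

set_option autoImplicit false

open MeasureTheory Set Filter Topology Complex
open scoped ContDiff Real Manifold

namespace MAP

noncomputable section

theorem G2_log (r : ℝ) : IntegrableOn (fun w : ℂ => |Real.log ‖w‖|) (Metric.ball 0 r) := by
  have h := integrableOn_fun_norm_addHaar (μ := (volume : Measure ℂ)) (f := fun s : ℝ => |Real.log s|) (r := r)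
  rw [h]
  have h2 : Module.finrank ℝ ℂ - 1 = 1 := by
    rw [Complex.finrank_real_complex]
  rw [h2]
  refine Measure.integrableOn_of_bounded (M := 1 + r ^ 2) (by simp) ?_ ?_
  · exact ((measurable_id.pow_const 1).smul (Real.measurable_log.abs)).aestronglyMeasurable
  · refine (ae_restrict_iff' measurableSet_Ioo).2 (Filter.Eventually.of_forall fun s hs => ?_)
    rw [pow_one, smul_eq_mul, norm_mul, Real.norm_eq_abs, Real.norm_eq_abs, abs_abs,
      abs_of_pos hs.1]
    rcases le_total s 1 with h1 | h1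
    · have h3 := Real.abs_log_mul_self_lt s hs.1 h1
      rw [abs_mul, abs_of_pos hs.1] at h3
      nlinarith [sq_nonneg r]
    · have h3 : 0 ≤ Real.log s := Real.log_nonneg h1
      rw [abs_of_nonneg h3]
      have h4 := Real.log_le_sub_one_of_pos hs.1
      nlinarith [hs.2]

theorem G2_int (r : ℝ) :
    IntegrableOn (fun y : C2 => |Real.log ‖y.2‖|) (Metric.ball (0 : C2) r) := by
  have h1 : Integrable ((Metric.ball (0 : ℂ) r).indicator (fun _ => (1 : ℝ))) := by
    rw [integrable_indicator_iff Metric.isOpen_ball.measurableSet]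
    exact integrableOn_const (by exact measure_ball_lt_top.ne)
  have h2 : Integrable ((Metric.ball (0 : ℂ) r).indicator (fun w : ℂ => |Real.log ‖w‖|)) := by
    rw [integrable_indicator_iff Metric.isOpen_ball.measurableSet]
    exact G2_log r
  have h3 := h1.mul_prod h2
  rw [← integrable_indicator_iff Metric.isOpen_ball.measurableSet]
  refine h3.congr (Filter.Eventually.of_forall fun y => ?_)
  show _ = (Metric.ball (0 : C2) r).indicator (fun y : C2 => |Real.log ‖y.2‖|) y
  by_cases h4 : y.1 ∈ Metric.ball (0 : ℂ) r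
  · by_cases h5 : y.2 ∈ Metric.ball (0 : ℂ) r
    · have h6 : y ∈ Metric.ball (0 : C2) r := by
        have : y ∈ Metric.ball (0 : ℂ) r ×ˢ Metric.ball (0 : ℂ) r := ⟨h4, h5⟩
        rw [ball_prod_same] at this
        exact this
      rw [Set.indicator_of_mem h6]
      simp only [Set.indicator_of_mem h4, Set.indicator_of_mem h5, one_mul]
    · have h6 : y ∉ Metric.ball (0 : C2) r := by
        intro h7
        have : y ∈ Metric.ball (0 : ℂ) r ×ˢ Metric.ball (0 : ℂ) r := by
          rw [ball_prod_same]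
          exact h7
        exact h5 this.2
      rw [Set.indicator_of_notMem h6]
      simp only [Set.indicator_of_notMem h5, mul_zero]
  · have h6 : y ∉ Metric.ball (0 : C2) r := by
      intro h7
      have : y ∈ Metric.ball (0 : ℂ) r ×ˢ Metric.ball (0 : ℂ) r := by
        rw [ball_prod_same]
        exact h7
      exact h4 this.1
    rw [Set.indicator_of_notMem h6]
    simp only [Set.indicator_of_notMem h4, zero_mul]

theorem G2_null : ∀ᵐ y : C2, y.2 ≠ 0 := by
  rw [ae_iff]
  have h : {y : C2 | ¬ y.2 ≠ 0} = Set.univ ×ˢ {(0 : ℂ)} := by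
    ext y
    simp
  rw [h]
  have h2 : (volume : Measure C2) = (volume : Measure ℂ).prod (volume : Measure ℂ) := rfl
  rw [h2, Measure.prod_prod]
  simp

theorem G2_zero {X : Type} [TopologicalSpace X] (K : KS X) : (fun _ => (0 : ℝ)) ∈ K.PS := by
  constructor
  · intro i
    exact contDiffOn_const
  · intro i y hy ξ
    have h : K.pot i (fun _ => 0) = K.ρ i := by
      funext z
      simp [KS.pot]
    rw [h]
    by_cases h0 : ξ = 0
    · subst h0
      unfold lap D2
      simp
    · exact (K.ρ_pos i y hy ξ h0).le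

/-- bounds of the soft truncation -/
theorem G2_soft {X : Type} (S : X → ℝ) (h0 : ∀ x, 0 ≤ S x) (h1 : ∀ x, S x ≤ Real.exp (-2)) (Λ : ℝ)
    (hΛ : 1 ≤ Λ) (x : X) : 0 ≤ -(soft S Λ x) ∧ -(soft S Λ x) ≤ Λ ∧
    (0 < S x → -(soft S Λ x) ≤ -((1 / 2) * Real.log (S x))) := by
  have e1 : 0 < Real.exp (-2 * Λ) := Real.exp_pos _
  have e2 : Real.exp (-2 * Λ) ≤ Real.exp (-2) := Real.exp_le_exp.2 (by linarith)
  have e3 : Real.exp (-2) ≤ 1 / 2 := by
    have h : (2 : ℝ) ≤ Real.exp 2 := by
      have := Real.add_one_le_exp (2 : ℝ)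
      linarith
    have h4 : Real.exp (-2) * Real.exp 2 = 1 := by
      rw [← Real.exp_add]
      simp
    nlinarith [Real.exp_pos (-2)]
  have hS0 := h0 x
  have hS1 := h1 x
  unfold soft
  refine ⟨?_, ?_, ?_⟩
  · have : Real.log (S x + Real.exp (-2 * Λ)) ≤ 0 := Real.log_nonpos (by linarith) (by linarith)
    linarith
  · have : -2 * Λ ≤ Real.log (S x + Real.exp (-2 * Λ)) := by
      rw [Real.le_log_iff_exp_le (by linarith)]
      linarith
    linarith
  · intro hS
    have : Real.log (S x) ≤ Real.log (S x + Real.exp (-2 * Λ)) :=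
      Real.log_le_log hS (by linarith)
    linarith

/-- bound in a chart -/
theorem G2_chart {X : Type} [TopologicalSpace X] (K : KSD X) (h0 : ∀ x, 0 ≤ K.S x) (i : Fin K.n) :
    ∃ M : ℝ, 0 ≤ M ∧ ∀ Λ : ℝ, 1 ≤ Λ → ∀ y ∈ cbal (K.c i) (K.R i), y.2 ≠ 0 →
      -(soft K.S Λ ((K.e i).symm y)) ≤ M + |Real.log ‖y.2‖| := by
  have hc : IsCompact (cbal (K.c i) (K.R i)) := S4_cbal_compact _ _ (K.R_pos i).le
  obtain ⟨M, hM⟩ := hc.exists_bound_of_continuousOn
    ((K.ρ_smooth i).continuousOn.mono (K.ball_sub i))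
  refine ⟨|M|, abs_nonneg _, fun Λ hΛ y hy hy2 => ?_⟩
  have hρ : K.ρ i y ≤ |M| := (le_abs_self _).trans ((hM y hy).trans (le_abs_self _))
  have hyt := K.ball_sub i hy
  have hs := G2_soft K.S h0 K.S_le Λ hΛ ((K.e i).symm y)
  rcases K.S_loc i with h | h
  · have h1 := h y hyt
    have h2 : 0 < K.S ((K.e i).symm y) := by rw [h1]; exact Real.exp_pos _
    have h3 := hs.2.2 h2
    rw [h1, Real.log_exp] at h3
    have := abs_nonneg (Real.log ‖y.2‖)
    linarith
  · have h1 := h y hyt
    have h4 : 0 < ‖y.2‖ := norm_pos_iff.2 hy2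
    have h2 : 0 < K.S ((K.e i).symm y) := by rw [h1]; positivity
    have h3 := hs.2.2 h2
    rw [h1, Real.log_mul (by positivity) (Real.exp_pos _).ne', Real.log_exp, Real.log_pow] at h3
    push_cast at h3
    have := neg_abs_le (Real.log ‖y.2‖)
    linarith

theorem G2 (hS1 : S1_stmt) (hS2 : S2_stmt) : G2_stmt := by
  classical
  intro X _ _ _ _ _ _ K
  obtain ⟨hScont, hS0, hPS⟩ := G1 X K
  have h00 := G2_zero K.toKS
  have hIsM : K.toKS.IsM (fun _ => 0) (fun _ => 0) (K.toKS.Ms (fun _ => 0) (fun _ => 0)) := by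
    have hex := hS1 X K.toKS _ h00 _ h00
    unfold KS.Ms
    rw [dif_pos hex]
    exact Classical.choose_spec hex
  obtain ⟨ν, hν⟩ : ∃ ν, ν = K.toKS.Ms (fun _ => 0) (fun _ => 0) := ⟨_, rfl⟩
  rw [← hν] at hIsM ⊢
  have hfin : IsFiniteMeasure ν := hIsM.1
  have hint := (hS2 X K.toKS _ h00 _ h00 ν hIsM).2
  have hpot : ∀ i, K.toKS.pot i (fun _ => 0) = K.ρ i := by
    intro i
    funext z
    simp [KS.pot]
  -- the constants
  have hall : ∀ i : Fin K.n, ∃ c : ℝ, ∀ Λ : ℝ, 1 ≤ Λ →
      ∫ x, ({x | x ∈ (K.e i).source ∧ K.e i x ∈ bal (K.c i) (K.R i / 2)}).indicator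
        (fun x => -(soft K.S Λ x)) x ∂ν ≤ c := by
    intro i
    obtain ⟨M, hM0, hM⟩ := G2_chart K hS0 i
    have hc : IsCompact (cbal (K.c i) (K.R i)) := S4_cbal_compact _ _ (K.R_pos i).le
    obtain ⟨D, hD⟩ := hc.exists_bound_of_continuousOn
      ((S1_dens_cont (K.ρ i) (K.ρ i) _ (K.e i).open_target (K.ρ_smooth i) (K.ρ_smooth i)).mono
        (K.ball_sub i))
    obtain ⟨G, hG⟩ : ∃ G : C2 → ℝ, G = (cbal (K.c i) (K.R i)).indicator
      (fun y => |D| * (M + |Real.log ‖y.2‖|)) := ⟨_, rfl⟩
    have hGint : Integrable G := by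
      rw [hG, integrable_indicator_iff hc.isClosed.measurableSet]
      obtain ⟨r, hr⟩ := hc.isBounded.subset_ball (0 : C2)
      have h1 : IntegrableOn (fun y : C2 => |D| * (M + |Real.log ‖y.2‖|)) (Metric.ball 0 r) := by
        have h2 : IntegrableOn (fun _ : C2 => M) (Metric.ball (0 : C2) r) :=
          integrableOn_const (by
            have h3 : IsCompact (Metric.closedBall (0 : C2) r) := isCompact_closedBall 0 r
            exact (lt_of_le_of_lt (measure_mono Metric.ball_subset_closedBall)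
              h3.measure_lt_top).ne)
        exact (h2.add (G2_int r)).const_mul |D|
      exact h1.mono_set hr
    refine ⟨∫ y in (K.e i).target, G y, fun Λ hΛ => ?_⟩
    set B : Set X := {x | x ∈ (K.e i).source ∧ K.e i x ∈ bal (K.c i) (K.R i / 2)} with hB
    have hBo : IsOpen B := (K.e i).isOpen_inter_preimage (S1_bal_open _ _)
    have hsoft : Continuous (soft K.S Λ) := by
      unfold soft
      refine continuous_const.mul (Continuous.log (hScont.add continuous_const) ?_)
      intro x
      have := hS0 x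
      have := Real.exp_pos (-2 * Λ)
      linarith
    have hmeas : Measurable (B.indicator (fun x => -(soft K.S Λ x))) :=
      (hsoft.measurable.neg).indicator hBo.measurableSet
    have hbd : ∃ b : ℝ, ∀ x, |B.indicator (fun x => -(soft K.S Λ x)) x| ≤ b := by
      refine ⟨Λ, fun x => ?_⟩
      have h1 := G2_soft K.S hS0 K.S_le Λ hΛ x
      by_cases hx : x ∈ B
      · rw [Set.indicator_of_mem hx, abs_of_nonneg h1.1]
        exact h1.2.1
      · rw [Set.indicator_of_notMem hx]
        simp
        linarith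
    have hoff : ∀ x, x ∉ (K.e i).source → B.indicator (fun x => -(soft K.S Λ x)) x = 0 := by
      intro x hx
      apply Set.indicator_of_notMem
      intro h
      exact hx h.1
    obtain ⟨hI, hE⟩ := hint i _ hmeas hbd hoff
    rw [hE]
    refine integral_mono_ae hI hGint.integrableOn ?_
    have hae : ∀ᵐ y ∂((volume : Measure C2).restrict (K.e i).target), y.2 ≠ 0 :=
      ae_restrict_of_ae G2_null
    filter_upwards [hae, ae_restrict_mem (K.e i).open_target.measurableSet] with y hy hyt
    rw [hpot i]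
    by_cases hx : (K.e i).symm y ∈ B
    · have hyb : y ∈ bal (K.c i) (K.R i / 2) := by
        have h1 := hx.2
        rwa [(K.e i).right_inv hyt] at h1
      have hyc : y ∈ cbal (K.c i) (K.R i) := by
        have h1 : nsq (y - K.c i) < (K.R i / 2) ^ 2 := hyb
        have h2 := K.R_pos i
        show nsq (y - K.c i) ≤ (K.R i) ^ 2
        nlinarith
      rw [Set.indicator_of_mem hx, hG, Set.indicator_of_mem hyc]
      have h1 := G2_soft K.S hS0 K.S_le Λ hΛ ((K.e i).symm y)
      have h2 := hM Λ hΛ y hyc hy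
      have h3 : dens (K.ρ i) (K.ρ i) y ≤ |D| :=
        (le_abs_self _).trans ((hD y hyc).trans (le_abs_self _))
      calc -(soft K.S Λ ((K.e i).symm y)) * dens (K.ρ i) (K.ρ i) y
          ≤ -(soft K.S Λ ((K.e i).symm y)) * |D| := mul_le_mul_of_nonneg_left h3 h1.1
        _ ≤ (M + |Real.log ‖y.2‖|) * |D| := mul_le_mul_of_nonneg_right h2 (abs_nonneg _)
        _ = _ := mul_comm _ _
    · rw [Set.indicator_of_notMem hx, zero_mul, hG]
      apply Set.indicator_nonneg
      intro z _
      positivity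
  choose c hc using hall
  refine ⟨∑ i, c i, fun Λ hΛ => ?_⟩
  have hsoft : Continuous (soft K.S Λ) := by
    unfold soft
    refine continuous_const.mul (Continuous.log (hScont.add continuous_const) ?_)
    intro x
    have := hS0 x
    have := Real.exp_pos (-2 * Λ)
    linarith
  have hint1 : Integrable (fun x => -(soft K.S Λ x)) ν := by
    refine Integrable.of_bound hsoft.neg.aestronglyMeasurable Λ (Filter.Eventually.of_forall fun x => ?_)
    have h1 := G2_soft K.S hS0 K.S_le Λ hΛ x
    rw [Real.norm_eq_abs, abs_of_nonneg h1.1]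
    exact h1.2.1
  have hBo : ∀ i, MeasurableSet {x | x ∈ (K.e i).source ∧ K.e i x ∈ bal (K.c i) (K.R i / 2)} :=
    fun i => ((K.e i).isOpen_inter_preimage (S1_bal_open _ _)).measurableSet
  calc ∫ x, -(soft K.S Λ x) ∂ν
      ≤ ∫ x, ∑ i, ({x | x ∈ (K.e i).source ∧ K.e i x ∈ bal (K.c i) (K.R i / 2)}).indicator
        (fun x => -(soft K.S Λ x)) x ∂ν := by
        refine integral_mono hint1 (integrable_finsetSum _ fun i _ => hint1.indicator (hBo i)) ?_
        intro x
        obtain ⟨i, hi⟩ := K.cover x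
        have h1 := G2_soft K.S hS0 K.S_le Λ hΛ x
        have h2 : -(soft K.S Λ x) =
            ({x | x ∈ (K.e i).source ∧ K.e i x ∈ bal (K.c i) (K.R i / 2)}).indicator
              (fun x => -(soft K.S Λ x)) x := by
          rw [Set.indicator_of_mem]
          exact hi
        show -(soft K.S Λ x) ≤ _
        rw [h2]
        refine Finset.single_le_sum (f := fun i => ({x | x ∈ (K.e i).source ∧
          K.e i x ∈ bal (K.c i) (K.R i / 2)}).indicator (fun x => -(soft K.S Λ x)) x)
          (fun j _ => ?_) (Finset.mem_univ i)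
        apply Set.indicator_nonneg
        intro z _
        exact (G2_soft K.S hS0 K.S_le Λ hΛ z).1
    _ = ∑ i, ∫ x, ({x | x ∈ (K.e i).source ∧ K.e i x ∈ bal (K.c i) (K.R i / 2)}).indicator
        (fun x => -(soft K.S Λ x)) x ∂ν :=
        integral_finsetSum _ fun i _ => hint1.indicator (hBo i)
    _ ≤ ∑ i, c i := Finset.sum_le_sum fun i _ => hc i Λ hΛ

end

end MAP
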