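import Pool.Agent.helper50.MA.Spec2

/-!
# Project ma, module G5: positivity of the area measure near a point of the curve
-/

set_option autoImplicit false

open MeasureTheory Set Filter Topology Complex
open scoped ContDiff Real Manifold

namespace MAP

noncomputable section

theorem G5_cont {u : C2 → ℝ} {s : Set C2} (hs : IsOpen s) (hu : ContDiffOn ℝ ∞ u s) :
    ContinuousOn (fun x => hA u x) s := by
  have h1 : ContDiffOn ℝ ∞ (fderiv ℝ u) s := hu.fderiv_of_isOpen hs (by simp)
  have h2 : ContinuousOn (fderiv ℝ (fderiv ℝ u)) s := h1.continuousOn_fderiv_of_isOpen hs (by simp)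
  unfold hA lap D2
  exact ((h2.clm_apply continuousOn_const).clm_apply continuousOn_const).add
    ((h2.clm_apply continuousOn_const).clm_apply continuousOn_const)

theorem G5 : G5_stmt := by
  intro X _ _ _ _ _ _ K μ hμ p hp U hU hpU
  obtain ⟨i, hi, _⟩ := K.cover p
  have hti : K.e i p ∈ (K.e i).target := (K.e i).map_source hi
  have hb : ∀ y ∈ (K.e i).target, K.S ((K.e i).symm y) = ‖y.2‖ ^ 2 * Real.exp (-2 * K.ρ i y) := by
    rcases K.S_loc i with h | h
    · exfalso
      have h1 := h _ hti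
      rw [(K.e i).left_inv hi, hp] at h1
      exact (Real.exp_pos _).ne h1
    · exact h
  have h2 : (K.e i p).2 = 0 := by
    have h1 := hb _ hti
    rw [(K.e i).left_inv hi, hp] at h1
    rcases mul_eq_zero.1 h1.symm with h3 | h3
    · exact norm_eq_zero.1 (pow_eq_zero_iff (by norm_num) |>.1 h3)
    · exact absurd h3 (Real.exp_pos _).ne'
  obtain ⟨A, hA'⟩ : ∃ A : Set X, A = U ∩ (K.e i).source := ⟨_, rfl⟩
  have hAo : IsOpen A := by rw [hA']; exact hU.inter (K.e i).open_source
  have hAs : A ⊆ (K.e i).source := by rw [hA']; exact inter_subset_right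
  have hAU : A ⊆ U := by rw [hA']; exact inter_subset_left
  have hpA : p ∈ A := by rw [hA']; exact ⟨hpU, hi⟩
  have hμA := hμ.2.2 i hb A hAo.measurableSet hAs
  refine lt_of_lt_of_le ?_ (measure_mono hAU)
  rw [hμA]
  set Z : Set ℂ := {z : ℂ | ((z, 0) : C2) ∈ (K.e i).target ∧ (K.e i).symm (z, 0) ∈ A} with hZ
  have hZo : IsOpen Z := by
    have h3 : IsOpen ((K.e i).target ∩ (K.e i).symm ⁻¹' A) := (K.e i).symm.isOpen_inter_preimage hAo
    have h4 : Continuous (fun z : ℂ => ((z, 0) : C2)) := by fun_prop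
    exact h3.preimage h4
  obtain ⟨z0, hz0⟩ : ∃ z0 : ℂ, z0 = (K.e i p).1 := ⟨_, rfl⟩
  have hz0' : ((z0, 0) : C2) = K.e i p := by
    rw [hz0, ← h2]
  have hz0Z : z0 ∈ Z := by
    refine ⟨?_, ?_⟩
    · rw [hz0']
      exact hti
    · rw [hz0', (K.e i).left_inv hi]
      exact hpA
  have hpos : 0 < hA (K.ρ i) (z0, 0) := by
    unfold hA
    refine K.ρ_pos i _ ?_ _ ?_
    · rw [hz0']
      exact hti
    · intro h
      have := congrArg Prod.fst h
      simp [e1] at this
  have hcont : ContinuousAt (fun z : ℂ => hA (K.ρ i) (z, 0)) z0 := by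
    have h3 : ContinuousAt (fun x => hA (K.ρ i) x) ((z0, 0) : C2) := by
      refine (G5_cont (K.e i).open_target (K.ρ_smooth i)).continuousAt
        ((K.e i).open_target.mem_nhds ?_)
      rw [hz0']
      exact hti
    have h4 : Continuous (fun z : ℂ => ((z, 0) : C2)) := by fun_prop
    exact ContinuousAt.comp (f := fun z : ℂ => ((z, 0) : C2)) (g := fun x => hA (K.ρ i) x)
      h3 h4.continuousAt
  have hev : ∀ᶠ z in 𝓝 z0, hA (K.ρ i) (z0, 0) / 2 < hA (K.ρ i) (z, 0) :=
    hcont.eventually (lt_mem_nhds (by linarith))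
  obtain ⟨r, hr, hball⟩ := Metric.mem_nhds_iff.1 (Filter.inter_mem hev (hZo.mem_nhds hz0Z))
  have hsub : Metric.ball z0 r ⊆ Z := fun z hz => (hball hz).2
  refine lt_of_lt_of_le ?_ (lintegral_mono_set hsub)
  have h5 : ∫⁻ _ in Metric.ball z0 r, ENNReal.ofReal (hA (K.ρ i) (z0, 0) / 2 / (2 * π)) ≤
      ∫⁻ z in Metric.ball z0 r, ENNReal.ofReal (hA (K.ρ i) (z, 0) / (2 * π)) := by
    refine setLIntegral_mono' Metric.isOpen_ball.measurableSet ?_
    intro z hz
    apply ENNReal.ofReal_le_ofReal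
    have h6 := (hball hz).1
    apply div_le_div_of_nonneg_right (le_of_lt h6) (by positivity)
  refine lt_of_lt_of_le ?_ h5
  rw [setLIntegral_const]
  apply ENNReal.mul_pos
  · rw [Ne, ENNReal.ofReal_eq_zero, not_le]
    positivity
  · exact (Metric.measure_ball_pos volume z0 hr).ne'

end

end MAP
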