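import Pool.Agent.helper37.MA.Spec

set_option autoImplicit false

namespace Pool.Agent.helper37.MA

open Finset Pool.Agent.NK Pool.Agent.helper37.NF

theorem CB1 (h1 : AVG_stmt) (h2 : UNI_stmt) (h3 : SYM_stmt) : CB1_stmt := by
  intro a b t i hi hia hab hit htab
  rcases Nat.lt_or_ge b (t - i) with hb | hb
  · unfold ff
    rw [Nat.choose_eq_zero_of_lt hb]
    simp
  have hsym := h3 a b t i hit hia.le hb
  have hc : 0 < (2 * a).choose a := Nat.choose_pos (by omega)
  have hcR : (0 : ℝ) < ((2 * a).choose a : ℝ) := by exact_mod_cast hc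
  set κ : ℝ := ((2 * i).choose i : ℝ) * ((2 * (a - i)).choose (a - i) : ℝ) / ((2 * a).choose a : ℝ) with hκ
  have hbase : ∀ c d : ℕ, c + d = 2 * a → (c.choose i : ℝ) * (d.choose (a - i) : ℝ) ≤ κ * ((2 * a).choose (i + (a - i)) : ℝ) := by
    intro c d hcd
    have hu := h2 c d i (a - i) hi (by omega) (by omega)
    have e1 : i + (a - i) = a := by omega
    rw [e1, hcd] at hu
    have e2 : i * (2 * a + 1) / a = 2 * i := by
      have : i * (2 * a + 1) = i + a * (2 * i) := by ring
      rw [this, Nat.add_mul_div_left _ _ (by omega : 0 < a), Nat.div_eq_of_lt hia, zero_add]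
    rw [e2] at hu
    have e3 : 2 * a - 2 * i = 2 * (a - i) := by omega
    rw [e3] at hu
    rw [e1, hκ, div_mul_cancel₀ _ hcR.ne']
    exact_mod_cast hu
  have hav := h1 i (a - i) (2 * a) κ hi (by omega) (by omega) hbase t (a + b - t) (by omega)
  rw [show i + (a - i) = a by omega, show t + (a + b - t) = a + b by omega] at hav
  have hn : (0 : ℝ) < ((a + b).choose a : ℝ) := by
    have : 0 < (a + b).choose a := Nat.choose_pos (by omega)
    exact_mod_cast this
  have hsymR : (ff a b t i : ℝ) * ((a + b).choose a : ℝ) =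
      (t.choose i : ℝ) * ((a + b - t).choose (a - i) : ℝ) * ((a + b).choose t : ℝ) := by exact_mod_cast hsym
  have ht0 : (0 : ℝ) ≤ ((a + b).choose t : ℝ) := Nat.cast_nonneg _
  have h4 : (ff a b t i : ℝ) * ((a + b).choose a : ℝ) ≤ κ * ((a + b).choose t : ℝ) * ((a + b).choose a : ℝ) := by
    rw [hsymR]
    have := mul_le_mul_of_nonneg_right hav ht0
    linarith
  have h5 : (ff a b t i : ℝ) ≤ κ * ((a + b).choose t : ℝ) := le_of_mul_le_mul_right h4 hn
  have h6 : (ff a b t i : ℝ) * ((2 * a).choose a : ℝ) ≤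
      ((2 * i).choose i : ℝ) * ((2 * (a - i)).choose (a - i) : ℝ) * ((a + b).choose t : ℝ) := by
    have h7 := mul_le_mul_of_nonneg_right h5 hcR.le
    have h8 : κ * ((a + b).choose t : ℝ) * ((2 * a).choose a : ℝ) =
        ((2 * i).choose i : ℝ) * ((2 * (a - i)).choose (a - i) : ℝ) * ((a + b).choose t : ℝ) := by
      rw [hκ]
      field_simp
    linarith
  exact_mod_cast h6

end Pool.Agent.helper37.MA
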